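import Mathlib

namespace Pool.Agent.Helper5.Quintic

/-- Splitting off one prime power from a product of pairwise coprime factors. -/
lemma one_step {R ι : Type*} [CommRing R] [IsDomain R] [Fintype ι] [DecidableEq ι]
    (A : ι → R) (hA : ∀ i j, i ≠ j → IsCoprime (A i) (A j)) {P c : R} (hP : Prime P)
    (e : ℕ) (he : 1 ≤ e) (h : ∏ i, A i = P ^ e * c) :
    ∃ (j : ι) (A' : ι → R), (∀ i k, i ≠ k → IsCoprime (A' i) (A' k)) ∧ ∏ i, A' i = c ∧
      ∀ i, A i = A' i * P ^ (if i = j then e else 0) := by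
  have h1 : P ∣ ∏ i, A i := by
    rw [h]
    exact Dvd.dvd.mul_right (dvd_pow_self P (by omega)) c
  obtain ⟨j, -, hj⟩ := (Prime.dvd_finsetProd_iff hP A).1 h1
  have h2 : ∀ i, i ≠ j → ¬ P ∣ A i := fun i hi hPi =>
    hP.not_isUnit ((hA i j hi).isUnit_of_dvd' hPi hj)
  have h3 : ¬ P ∣ ∏ i ∈ Finset.univ.erase j, A i := by
    intro hd
    obtain ⟨i, hi, hi'⟩ := (Prime.dvd_finsetProd_iff hP A).1 hd
    exact h2 i (Finset.ne_of_mem_erase hi) hi'
  have h4 : A j * ∏ i ∈ Finset.univ.erase j, A i = P ^ e * c := by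
    rw [← h, Finset.mul_prod_erase _ _ (Finset.mem_univ j)]
  have h5 : P ^ e ∣ A j := by
    apply hP.pow_dvd_of_dvd_mul_right e h3
    rw [h4]; exact dvd_mul_right _ _
  obtain ⟨a, ha⟩ := h5
  refine ⟨j, Function.update A j a, ?_, ?_, ?_⟩
  · intro i k hik
    by_cases hi : i = j
    · subst hi
      have hk : k ≠ i := fun h => hik h.symm
      rw [Function.update_self, Function.update_of_ne hk]
      have := hA i k hik
      rw [ha] at this
      exact this.of_mul_left_right
    · by_cases hk : k = j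
      · subst hk
        rw [Function.update_self, Function.update_of_ne hi]
        have := hA i k hik
        rw [ha] at this
        exact this.of_mul_right_right
      · rw [Function.update_of_ne hi, Function.update_of_ne hk]
        exact hA i k hik
  · have h6 : ∏ i, Function.update A j a i = a * ∏ i ∈ Finset.univ.erase j, A i := by
      rw [← Finset.mul_prod_erase _ _ (Finset.mem_univ j), Function.update_self]
      congr 1
      apply Finset.prod_congr rfl
      intro i hi
      rw [Function.update_of_ne (Finset.ne_of_mem_erase hi)]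
    rw [h6]
    rw [ha, mul_assoc] at h4
    exact mul_left_cancel₀ (pow_ne_zero e hP.ne_zero) h4
  · intro i
    by_cases hi : i = j
    · subst hi
      simp only [Function.update_self, if_true]
      rw [ha, mul_comm]
    · simp [hi]

/-- A member of a pairwise coprime family with product a unit times a fifth power is itself
a unit times a fifth power. -/
lemma fifth {R ι : Type*} [CommRing R] [IsDomain R] [IsPrincipalIdealRing R] [Fintype ι]
    [DecidableEq ι]
    (A : ι → R) (hA : ∀ i j, i ≠ j → IsCoprime (A i) (A j)) (η : Rˣ) (Z : R)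
    (h : ∏ i, A i = η * Z ^ 5) (i : ι) : ∃ (ε : Rˣ) (β : R), A i = ε * β ^ 5 := by
  have h1 : A i * ∏ j ∈ Finset.univ.erase i, A j = η * Z ^ 5 := by
    rw [← h, Finset.mul_prod_erase _ _ (Finset.mem_univ i)]
  have h2 : IsCoprime (A i * (η⁻¹ : Rˣ)) (∏ j ∈ Finset.univ.erase i, A j) := by
    apply IsCoprime.prod_right
    intro j hj
    rw [isCoprime_mul_unit_right_left (Units.isUnit _)]
    exact hA i j (Finset.ne_of_mem_erase hj).symm
  have h3 : (A i * (η⁻¹ : Rˣ)) * ∏ j ∈ Finset.univ.erase i, A j = Z ^ 5 := by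
    calc _ = (η⁻¹ : Rˣ) * (A i * ∏ j ∈ Finset.univ.erase i, A j) := by ring
      _ = _ := by rw [h1, ← mul_assoc, Units.inv_mul, one_mul]
  obtain ⟨d, u, hu⟩ := exists_associated_pow_of_mul_eq_pow' h2 h3
  refine ⟨η * u, d, ?_⟩
  have h4 : A i = η * (A i * (η⁻¹ : Rˣ)) := by
    rw [mul_comm, mul_assoc, Units.inv_mul, mul_one]
  rw [h4, ← hu, Units.val_mul]; ring

/-- The combinatorial core: positions of the five prime powers. -/
lemma positions : ∀ f0 f1 f2 f3 f4 : Fin 5,
    (∀ i : Fin 5, i ≠ 0 →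
      (((if i = f1 then 1 else 0) + (if i = f2 then 8 else 0) + (if i = f3 then 27 else 0)
        + (if i = f4 then 64 else 0) : ℕ)) % 5 =
      (((if 1 = f1 then 1 else 0) + (if 1 = f2 then 8 else 0) + (if 1 = f3 then 27 else 0)
        + (if 1 = f4 then 64 else 0) : ℕ)) % 5) →
    (∀ i : Fin 5, i ≠ 0 →
      (((if i = f0 then 2 else 0) + (if i = f1 then 1 else 0) + (if i = f2 then 1 else 0)
        + (if i = f3 then 1 else 0) + (if i = f4 then 1 else 0) : ℕ)) % 5 =
      (((if 1 = f0 then 2 else 0) + (if 1 = f1 then 1 else 0) + (if 1 = f2 then 1 else 0)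
        + (if 1 = f3 then 1 else 0) + (if 1 = f4 then 1 else 0) : ℕ)) % 5) →
    f0 = 0 ∧ f1 = 0 ∧ f2 = 0 ∧ f3 = 0 ∧ f4 = 0 := by
  decide +kernel

end Pool.Agent.Helper5.Quintic
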