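import Mathlib

namespace Pool.Agent.Helper5.Quintic

/-- The truncated polynomial ring over the field with five elements in a variable `v`
with `v ^ 4 = 0`, given by its four coefficients. -/
@[ext] structure T where
  c0 : ZMod 5
  c1 : ZMod 5
  c2 : ZMod 5
  c3 : ZMod 5

instance fact5 : Fact (Nat.Prime 5) := ⟨by norm_num⟩

namespace T

instance : Zero T := ⟨⟨0, 0, 0, 0⟩⟩
instance : One T := ⟨⟨1, 0, 0, 0⟩⟩
instance : Add T := ⟨fun a b => ⟨a.c0 + b.c0, a.c1 + b.c1, a.c2 + b.c2, a.c3 + b.c3⟩⟩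
instance : Neg T := ⟨fun a => ⟨-a.c0, -a.c1, -a.c2, -a.c3⟩⟩
instance : Mul T := ⟨fun a b => ⟨a.c0 * b.c0, a.c0 * b.c1 + a.c1 * b.c0,
  a.c0 * b.c2 + a.c1 * b.c1 + a.c2 * b.c0,
  a.c0 * b.c3 + a.c1 * b.c2 + a.c2 * b.c1 + a.c3 * b.c0⟩⟩

@[simp] lemma zero_c0 : (0 : T).c0 = 0 := rfl
@[simp] lemma zero_c1 : (0 : T).c1 = 0 := rfl
@[simp] lemma zero_c2 : (0 : T).c2 = 0 := rfl
@[simp] lemma zero_c3 : (0 : T).c3 = 0 := rfl
@[simp] lemma one_c0 : (1 : T).c0 = 1 := rfl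
@[simp] lemma one_c1 : (1 : T).c1 = 0 := rfl
@[simp] lemma one_c2 : (1 : T).c2 = 0 := rfl
@[simp] lemma one_c3 : (1 : T).c3 = 0 := rfl
@[simp] lemma add_c0 (a b : T) : (a + b).c0 = a.c0 + b.c0 := rfl
@[simp] lemma add_c1 (a b : T) : (a + b).c1 = a.c1 + b.c1 := rfl
@[simp] lemma add_c2 (a b : T) : (a + b).c2 = a.c2 + b.c2 := rfl
@[simp] lemma add_c3 (a b : T) : (a + b).c3 = a.c3 + b.c3 := rfl
@[simp] lemma neg_c0 (a : T) : (-a).c0 = -a.c0 := rfl
@[simp] lemma neg_c1 (a : T) : (-a).c1 = -a.c1 := rfl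
@[simp] lemma neg_c2 (a : T) : (-a).c2 = -a.c2 := rfl
@[simp] lemma neg_c3 (a : T) : (-a).c3 = -a.c3 := rfl
@[simp] lemma mul_c0 (a b : T) : (a * b).c0 = a.c0 * b.c0 := rfl
@[simp] lemma mul_c1 (a b : T) : (a * b).c1 = a.c0 * b.c1 + a.c1 * b.c0 := rfl
@[simp] lemma mul_c2 (a b : T) :
    (a * b).c2 = a.c0 * b.c2 + a.c1 * b.c1 + a.c2 * b.c0 := rfl
@[simp] lemma mul_c3 (a b : T) :
    (a * b).c3 = a.c0 * b.c3 + a.c1 * b.c2 + a.c2 * b.c1 + a.c3 * b.c0 := rfl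

instance : CommRing T where
  add_assoc a b c := by ext <;> simp [add_assoc]
  zero_add a := by ext <;> simp
  add_zero a := by ext <;> simp
  add_comm a b := by ext <;> simp [add_comm]
  mul_assoc a b c := by ext <;> simp <;> ring
  one_mul a := by ext <;> simp
  mul_one a := by ext <;> simp
  mul_comm a b := by ext <;> simp <;> ring
  left_distrib a b c := by ext <;> simp <;> ring
  right_distrib a b c := by ext <;> simp <;> ring
  zero_mul a := by ext <;> simp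
  mul_zero a := by ext <;> simp
  neg_add_cancel a := by ext <;> simp
  nsmul := nsmulRec
  zsmul := zsmulRec

@[simp] lemma sub_c0 (a b : T) : (a - b).c0 = a.c0 - b.c0 := by
  rw [sub_eq_add_neg, add_c0, neg_c0, sub_eq_add_neg]
@[simp] lemma sub_c1 (a b : T) : (a - b).c1 = a.c1 - b.c1 := by
  rw [sub_eq_add_neg, add_c1, neg_c1, sub_eq_add_neg]
@[simp] lemma sub_c2 (a b : T) : (a - b).c2 = a.c2 - b.c2 := by
  rw [sub_eq_add_neg, add_c2, neg_c2, sub_eq_add_neg]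
@[simp] lemma sub_c3 (a b : T) : (a - b).c3 = a.c3 - b.c3 := by
  rw [sub_eq_add_neg, add_c3, neg_c3, sub_eq_add_neg]

/-- The constant coefficient as a ring homomorphism. -/
def c0Hom : T →+* ZMod 5 where
  toFun := c0
  map_one' := rfl
  map_mul' _ _ := rfl
  map_zero' := rfl
  map_add' _ _ := rfl

@[simp] lemma c0Hom_apply (a : T) : c0Hom a = a.c0 := rfl

/-- Normalised coefficients. -/
def b1 (s : T) : ZMod 5 := s.c1 * s.c0 ^ 3
def b2 (s : T) : ZMod 5 := s.c2 * s.c0 ^ 3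
def b3 (s : T) : ZMod 5 := s.c3 * s.c0 ^ 3

/-- The coefficients of the logarithm. -/
def L1 (s : T) : ZMod 5 := b1 s
def L2 (s : T) : ZMod 5 := b2 s + 2 * (b1 s) ^ 2
def L3 (s : T) : ZMod 5 := b3 s - b1 s * b2 s + 2 * (b1 s) ^ 3

lemma pow4 {x : ZMod 5} (hx : x ≠ 0) : x ^ 4 = 1 := by
  revert x; decide

lemma b1_mul {s t : T} (hs : s.c0 ≠ 0) (ht : t.c0 ≠ 0) : b1 (s * t) = b1 s + b1 t := by
  have h1 := pow4 hs
  have h2 := pow4 ht
  simp only [b1, mul_c0, mul_c1]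
  linear_combination (t.c1 * t.c0 ^ 3) * h1 + (s.c1 * s.c0 ^ 3) * h2

lemma b2_mul {s t : T} (hs : s.c0 ≠ 0) (ht : t.c0 ≠ 0) :
    b2 (s * t) = b2 s + b1 s * b1 t + b2 t := by
  have h1 := pow4 hs
  have h2 := pow4 ht
  simp only [b1, b2, mul_c0, mul_c2]
  linear_combination (t.c2 * t.c0 ^ 3) * h1 + (s.c2 * s.c0 ^ 3) * h2

lemma b3_mul {s t : T} (hs : s.c0 ≠ 0) (ht : t.c0 ≠ 0) :
    b3 (s * t) = b3 s + b2 s * b1 t + b1 s * b2 t + b3 t := by
  have h1 := pow4 hs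
  have h2 := pow4 ht
  simp only [b1, b2, b3, mul_c0, mul_c3]
  linear_combination (t.c3 * t.c0 ^ 3) * h1 + (s.c3 * s.c0 ^ 3) * h2

lemma five_eq_zero : (5 : ZMod 5) = 0 := by decide

lemma L1_mul {s t : T} (hs : s.c0 ≠ 0) (ht : t.c0 ≠ 0) : L1 (s * t) = L1 s + L1 t :=
  b1_mul hs ht

lemma L2_mul {s t : T} (hs : s.c0 ≠ 0) (ht : t.c0 ≠ 0) : L2 (s * t) = L2 s + L2 t := by
  simp only [L2, b1_mul hs ht, b2_mul hs ht]
  linear_combination (b1 s * b1 t) * five_eq_zero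

lemma L3_mul {s t : T} (hs : s.c0 ≠ 0) (ht : t.c0 ≠ 0) : L3 (s * t) = L3 s + L3 t := by
  simp only [L3, b1_mul hs ht, b2_mul hs ht, b3_mul hs ht]
  linear_combination ((b1 s) ^ 2 * b1 t + b1 s * (b1 t) ^ 2) * five_eq_zero

lemma pow_c0 (s : T) (n : ℕ) : (s ^ n).c0 = s.c0 ^ n := map_pow c0Hom s n

lemma L1_one : L1 1 = 0 := by simp [L1, b1]
lemma L2_one : L2 1 = 0 := by simp [L2, b1, b2]
lemma L3_one : L3 1 = 0 := by simp [L3, b1, b2, b3]

lemma L1_pow {s : T} (hs : s.c0 ≠ 0) (n : ℕ) : L1 (s ^ n) = n * L1 s := by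
  induction n with
  | zero => simp [L1_one]
  | succ n ih =>
    rw [pow_succ, L1_mul (by rw [pow_c0]; exact pow_ne_zero n hs) hs, ih]; push_cast; ring

lemma L2_pow {s : T} (hs : s.c0 ≠ 0) (n : ℕ) : L2 (s ^ n) = n * L2 s := by
  induction n with
  | zero => simp [L2_one]
  | succ n ih =>
    rw [pow_succ, L2_mul (by rw [pow_c0]; exact pow_ne_zero n hs) hs, ih]; push_cast; ring

lemma L3_pow {s : T} (hs : s.c0 ≠ 0) (n : ℕ) : L3 (s ^ n) = n * L3 s := by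
  induction n with
  | zero => simp [L3_one]
  | succ n ih =>
    rw [pow_succ, L3_mul (by rw [pow_c0]; exact pow_ne_zero n hs) hs, ih]; push_cast; ring

lemma unit_c0 (s : Tˣ) : (s : T).c0 ≠ 0 := by
  have := (s.map c0Hom.toMonoidHom).ne_zero
  simpa using this

/-- `L1`, `L2`, `L3` as homomorphisms on the group of units. -/
def L1h : Tˣ →* Multiplicative (ZMod 5) where
  toFun s := Multiplicative.ofAdd (L1 s)
  map_one' := by simp [L1_one]
  map_mul' s t := by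
    rw [Units.val_mul, L1_mul (unit_c0 s) (unit_c0 t)]; rfl

def L2h : Tˣ →* Multiplicative (ZMod 5) where
  toFun s := Multiplicative.ofAdd (L2 s)
  map_one' := by simp [L2_one]
  map_mul' s t := by
    rw [Units.val_mul, L2_mul (unit_c0 s) (unit_c0 t)]; rfl

def L3h : Tˣ →* Multiplicative (ZMod 5) where
  toFun s := Multiplicative.ofAdd (L3 s)
  map_one' := by simp [L3_one]
  map_mul' s t := by
    rw [Units.val_mul, L3_mul (unit_c0 s) (unit_c0 t)]; rfl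

/-- The exponential `1 + v + v ^ 2 / 2 + v ^ 3 / 6`. -/
def E : T := ⟨1, 1, 3, 1⟩

lemma E_cyc : 1 + E + E ^ 2 + E ^ 3 + E ^ 4 = 0 := by
  have h2 : E ^ 2 = E * E := pow_two E
  have h3 : E ^ 3 = E * E * E := by rw [pow_succ, h2]
  have h4 : E ^ 4 = E * E * E * E := by rw [pow_succ, h3]
  rw [h2, h3, h4]
  ext <;> simp [E] <;> decide

end T

end Pool.Agent.Helper5.Quintic
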