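import Mathlib
import Pool.Agent.Helper5.Quintic.Trunc
import Pool.Agent.Helper5.Quintic.Factor

namespace Pool.Agent.Helper5.Quintic

/-- The facts about the ring of integers of the fifth cyclotomic field which the descent uses. -/
structure Setup (R : Type*) [CommRing R] where
  z : R
  hz : 1 + z + z ^ 2 + z ^ 3 + z ^ 4 = 0
  lam_prime : Prime (z - 1)
  int_rep : ∀ a : R, ∃ n : ℤ, z - 1 ∣ a - n
  two_prime : Prime (2 : R)
  pi_prime : ∀ k : ℕ, 1 ≤ k → k ≤ 4 → Prime (2 + z ^ k)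
  Φ : R →+* T
  hΦ : Φ z = T.E
  N : R →* ℤ
  N_int : ∀ n : ℤ, N n = n ^ 4
  N_pi : ∀ k : ℕ, 1 ≤ k → k ≤ 4 → N (2 + z ^ k) = 11
  N_congr1 : ∀ a b : R, (z - 1) ∣ a - b → (5 : ℤ) ∣ N a - N b
  N_congr : ∀ a b : R, (z - 1) ^ 5 ∣ a - b → (25 : ℤ) ∣ N a - N b
  kummer : ∀ u : Rˣ, T.L1 (Φ u) = 0 → T.L2 (Φ u) = 0 → ∃ w : Rˣ, u = w ^ 5
  L3_unit : ∀ u : Rˣ, T.L3 (Φ u) = 0

namespace Setup

variable {R : Type*} [CommRing R] (S : Setup R)

lemma z5 : S.z ^ 5 = 1 := by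
  linear_combination (S.z - 1) * S.hz

lemma lam_four : (S.z - 1) ^ 4 = 5 * (-S.z + S.z ^ 2 - S.z ^ 3) := by
  linear_combination S.hz

lemma five_eq : (5 : R) = (S.z - 1) ^ 4 * (-1 - S.z + S.z ^ 3) := by
  linear_combination (-S.z ^ 3 + 5 * S.z ^ 2 - 9 * S.z + 6) * S.hz

lemma lam_dvd_five : S.z - 1 ∣ 5 := by
  rw [S.five_eq]
  exact Dvd.dvd.mul_right (dvd_pow_self _ (by norm_num)) _

lemma lam_dvd_int {n : ℤ} (h : (5 : ℤ) ∣ n) : S.z - 1 ∣ (n : R) := by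
  obtain ⟨m, rfl⟩ := h
  push_cast
  exact Dvd.dvd.mul_right S.lam_dvd_five _

lemma Φ_lam : S.Φ (S.z - 1) = ⟨0, 1, 3, 1⟩ := by
  rw [map_sub, S.hΦ, map_one]
  ext <;> simp [T.E]

lemma Φ_lam_four : S.Φ ((S.z - 1) ^ 4) = 0 := by
  have h4 : (S.z - 1) ^ 4 = (S.z - 1) * (S.z - 1) * ((S.z - 1) * (S.z - 1)) := by ring
  rw [h4, map_mul, map_mul, S.Φ_lam]
  ext <;> simp

lemma Φ_congr {a b : R} (h : (S.z - 1) ^ 4 ∣ a - b) : S.Φ a = S.Φ b := by
  obtain ⟨c, hc⟩ := h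
  have : a = b + (S.z - 1) ^ 4 * c := by rw [← hc]; ring
  rw [this, map_add, map_mul, S.Φ_lam_four, zero_mul, add_zero]

lemma Φ_int_c0 (n : ℤ) : (S.Φ (n : R)).c0 = n := by
  rw [map_intCast]
  exact map_intCast T.c0Hom n

lemma c0_congr {a b : R} (h : (S.z - 1) ∣ a - b) : (S.Φ a).c0 = (S.Φ b).c0 := by
  obtain ⟨c, hc⟩ := h
  have : a = b + (S.z - 1) * c := by rw [← hc]; ring
  rw [this, map_add, map_mul, S.Φ_lam]
  simp

lemma c0_ne {a : R} (h : ¬ (S.z - 1) ∣ a) : (S.Φ a).c0 ≠ 0 := by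
  intro h0
  obtain ⟨n, hn⟩ := S.int_rep a
  rw [S.c0_congr hn, S.Φ_int_c0, ZMod.intCast_zmod_eq_zero_iff_dvd] at h0
  apply h
  have h1 := S.lam_dvd_int (n := n) (by exact_mod_cast h0)
  have h2 := dvd_add hn h1
  simpa using h2

lemma five_not_dvd_N {a : R} (h : ¬ (S.z - 1) ∣ a) : ¬ (5 : ℤ) ∣ S.N a := by
  intro h0
  obtain ⟨n, hn⟩ := S.int_rep a
  have h1 := S.N_congr1 a n hn
  rw [S.N_int] at h1
  have h2 : (5 : ℤ) ∣ n ^ 4 := by
    have := dvd_sub h0 h1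
    simpa using this
  have h3 : (5 : ℤ) ∣ n := Int.Prime.dvd_pow' (by norm_num) h2
  apply h
  have h4 := dvd_add hn (S.lam_dvd_int h3)
  simpa using h4

/-- The fourth power of the norm modulo twenty-five. -/
def M (a : R) : ZMod 25 := (S.N a : ZMod 25) ^ 4

lemma M_mul (a b : R) : S.M (a * b) = S.M a * S.M b := by
  simp [M, mul_pow]

lemma M_pow (a : R) (n : ℕ) : S.M (a ^ n) = S.M a ^ n := by
  simp [M, ← pow_mul, mul_comm]

lemma M_unit (u : Rˣ) : S.M (u : R) = 1 := by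
  have h : IsUnit (S.N (u : R)) := u.isUnit.map S.N
  rcases Int.isUnit_iff.1 h with h | h
  · simp [M, h]
  · simp only [M, h]; norm_num

lemma M_fifth {b : R} (h : ¬ (S.z - 1) ∣ b) : S.M (b ^ 5) = 1 := by
  have h5 := S.five_not_dvd_N h
  simp only [M, map_pow, Int.cast_pow, ← pow_mul]
  norm_num
  have hu : IsUnit ((S.N b : ℤ) : ZMod 25) := by
    rw [ZMod.coe_int_isUnit_iff_isCoprime]
    have : IsCoprime (5 : ℤ) (S.N b) := by
      rw [Prime.coprime_iff_not_dvd (by norm_num : Prime (5 : ℤ))]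
      exact h5
    have h2 : IsCoprime ((5 : ℤ) ^ 2) (S.N b) := this.pow_left
    simpa using h2
  obtain ⟨u, hu⟩ := hu
  have h20 : u ^ 20 = 1 := by
    have := ZMod.pow_totient u
    have ht : Nat.totient 25 = 20 := by decide
    rwa [ht] at this
  rw [← hu, ← Units.val_pow_eq_pow_val, h20, Units.val_one]

lemma M_congr {a b : R} (h : (S.z - 1) ^ 5 ∣ a - b) : S.M a = S.M b := by
  have h1 := S.N_congr a b h
  have h2 : ((S.N a : ℤ) : ZMod 25) = ((S.N b : ℤ) : ZMod 25) := by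
    rw [ZMod.intCast_eq_intCast_iff_dvd_sub]
    have := (dvd_neg (a := (25 : ℤ))).2 h1
    simpa using this
  simp [M, h2]

end Setup

end Pool.Agent.Helper5.Quintic
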