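import Mathlib
import Pool.Agent.Helper5.Quintic.Setup

namespace Pool.Agent.Helper5.Quintic

namespace Setup

variable {R : Type*} [CommRing R] (S : Setup R)

lemma Φ_two : S.Φ 2 = ⟨2, 0, 0, 0⟩ := by
  have h : (2 : R) = 1 + 1 := by norm_num
  rw [h, map_add, map_one]
  ext <;> simp; decide

lemma Φ_pi1 : S.Φ (2 + S.z ^ 1) = ⟨3, 1, 3, 1⟩ := by
  rw [map_add, S.Φ_two, pow_one, S.hΦ]
  ext <;> simp [T.E]; decide

lemma Φ_pi2 : S.Φ (2 + S.z ^ 2) = ⟨3, 2, 2, 3⟩ := by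
  rw [map_add, S.Φ_two, pow_two, map_mul, S.hΦ]
  ext <;> simp [T.E] <;> decide

lemma Φ_pi3 : S.Φ (2 + S.z ^ 3) = ⟨3, 3, 2, 2⟩ := by
  have : S.z ^ 3 = S.z * S.z * S.z := by ring
  rw [map_add, S.Φ_two, this, map_mul, map_mul, S.hΦ]
  ext <;> simp [T.E] <;> decide

lemma Φ_pi4 : S.Φ (2 + S.z ^ 4) = ⟨3, 4, 3, 4⟩ := by
  have : S.z ^ 4 = S.z * S.z * S.z * S.z := by ring
  rw [map_add, S.Φ_two, this, map_mul, map_mul, map_mul, S.hΦ]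
  ext <;> simp [T.E] <;> decide

lemma L3_two : T.L3 (S.Φ 2) = 0 := by rw [S.Φ_two]; decide
lemma L3_pi1 : T.L3 (S.Φ (2 + S.z ^ 1)) = (1 : ℕ) := by rw [S.Φ_pi1]; decide
lemma L3_pi2 : T.L3 (S.Φ (2 + S.z ^ 2)) = (8 : ℕ) := by rw [S.Φ_pi2]; decide
lemma L3_pi3 : T.L3 (S.Φ (2 + S.z ^ 3)) = (27 : ℕ) := by rw [S.Φ_pi3]; decide
lemma L3_pi4 : T.L3 (S.Φ (2 + S.z ^ 4)) = (64 : ℕ) := by rw [S.Φ_pi4]; decide

lemma c0_two : (S.Φ 2).c0 ≠ 0 := by rw [S.Φ_two]; decide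
lemma c0_pi1 : (S.Φ (2 + S.z ^ 1)).c0 ≠ 0 := by rw [S.Φ_pi1]; decide
lemma c0_pi2 : (S.Φ (2 + S.z ^ 2)).c0 ≠ 0 := by rw [S.Φ_pi2]; decide
lemma c0_pi3 : (S.Φ (2 + S.z ^ 3)).c0 ≠ 0 := by rw [S.Φ_pi3]; decide
lemma c0_pi4 : (S.Φ (2 + S.z ^ 4)).c0 ≠ 0 := by rw [S.Φ_pi4]; decide

lemma c0_mul (a b : R) : (S.Φ (a * b)).c0 = (S.Φ a).c0 * (S.Φ b).c0 := by
  rw [map_mul, T.mul_c0]

lemma c0_pow (a : R) (n : ℕ) : (S.Φ (a ^ n)).c0 = (S.Φ a).c0 ^ n := by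
  rw [map_pow, T.pow_c0]

/-- `L3` on the ring. -/
def l3 (a : R) : ZMod 5 := T.L3 (S.Φ a)

lemma l3_mul {a b : R} (ha : (S.Φ a).c0 ≠ 0) (hb : (S.Φ b).c0 ≠ 0) :
    S.l3 (a * b) = S.l3 a + S.l3 b := by
  rw [l3, map_mul, T.L3_mul ha hb]; rfl

lemma l3_pow {a : R} (ha : (S.Φ a).c0 ≠ 0) (n : ℕ) : S.l3 (a ^ n) = n * S.l3 a := by
  rw [l3, map_pow, T.L3_pow ha]; rfl

lemma M_two : S.M 2 = 16 ^ 4 := by
  have := S.N_int 2
  simp only [M]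
  push_cast at this
  rw [this]
  decide

lemma M_pi (k : ℕ) (h1 : 1 ≤ k) (h4 : k ≤ 4) : S.M (2 + S.z ^ k) = 16 := by
  simp only [M, S.N_pi k h1 h4]
  decide

lemma seven : ∀ a b : Fin 7, (16 : ZMod 25) ^ (a : ℕ) = 16 ^ (b : ℕ) → (a : ℕ) % 5 = (b : ℕ) % 5 := by
  decide +kernel

/-- The key step: all of `88` sits in the special factor. -/
lemma key [IsDomain R] [IsPrincipalIdealRing R] (A : Fin 5 → R)
    (hcop : ∀ i j, i ≠ j → IsCoprime (A i) (A j))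
    (hlam : ∀ i, ¬ (S.z - 1) ∣ A i)
    (hcong : ∀ i, i ≠ 0 → (S.z - 1) ^ 5 ∣ A i - A 1) (η : Rˣ) (Z : R)
    (h : ∏ i, A i = η * 88 * Z ^ 5) :
    ∃ (ε : Fin 5 → Rˣ) (β : Fin 5 → R), A 0 = ε 0 * 88 * β 0 ^ 5 ∧
      ∀ i, i ≠ 0 → A i = ε i * β i ^ 5 := by
  have h88 : (88 : R) = 2 ^ 3 * ((2 + S.z ^ 1) * ((2 + S.z ^ 2) * ((2 + S.z ^ 3) *
      (2 + S.z ^ 4)))) := by
    have h11 : ((2 + S.z ^ 1) * ((2 + S.z ^ 2) * ((2 + S.z ^ 3) * (2 + S.z ^ 4)))) = 11 := by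
      linear_combination (S.z ^ 6 + S.z ^ 5 + 4 * S.z ^ 3 + 3 * S.z + 5) * S.hz
    rw [h11]; norm_num
  have e0 : ∏ i, A i = 2 ^ 3 * ((2 + S.z ^ 1) ^ 1 * ((2 + S.z ^ 2) ^ 1 * ((2 + S.z ^ 3) ^ 1 *
      ((2 + S.z ^ 4) ^ 1 * (η * Z ^ 5))))) := by
    rw [h, h88]; ring
  obtain ⟨f0, A1, hA1, e1, d1⟩ := one_step A hcop S.two_prime 3 (by norm_num) e0
  obtain ⟨f1, A2, hA2, e2, d2⟩ := one_step A1 hA1 (S.pi_prime 1 (by norm_num) (by norm_num))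
    1 (by norm_num) e1
  obtain ⟨f2, A3, hA3, e3, d3⟩ := one_step A2 hA2 (S.pi_prime 2 (by norm_num) (by norm_num))
    1 (by norm_num) e2
  obtain ⟨f3, A4, hA4, e4, d4⟩ := one_step A3 hA3 (S.pi_prime 3 (by norm_num) (by norm_num))
    1 (by norm_num) e3
  obtain ⟨f4, A5, hA5, e5, d5⟩ := one_step A4 hA4 (S.pi_prime 4 (by norm_num) (by norm_num))
    1 (by norm_num) e4
  have h5 := fun i => fifth A5 hA5 η Z e5 i
  choose ε β hεβ using h5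
  have hA : ∀ i, A i = ε i * β i ^ 5 * (2 + S.z ^ 4) ^ (if i = f4 then 1 else 0) *
      (2 + S.z ^ 3) ^ (if i = f3 then 1 else 0) * (2 + S.z ^ 2) ^ (if i = f2 then 1 else 0) *
      (2 + S.z ^ 1) ^ (if i = f1 then 1 else 0) * 2 ^ (if i = f0 then 3 else 0) := by
    intro i
    rw [d1 i, d2 i, d3 i, d4 i, d5 i, hεβ i]
  have hβ : ∀ i, ¬ (S.z - 1) ∣ β i := by
    intro i hd
    apply hlam i
    rw [hA i]
    have : S.z - 1 ∣ ε i * β i ^ 5 := Dvd.dvd.mul_left (dvd_pow hd (by norm_num)) _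
    exact ((((this.mul_right _).mul_right _).mul_right _).mul_right _).mul_right _
  have cε : ∀ i, (S.Φ (ε i : R)).c0 ≠ 0 := fun i => T.unit_c0 (Units.map S.Φ.toMonoidHom (ε i))
  have cβ : ∀ i, (S.Φ (β i)).c0 ≠ 0 := fun i => S.c0_ne (hβ i)
  have hl3 : ∀ i, S.l3 (A i) = (((if i = f1 then 1 else 0) + (if i = f2 then 8 else 0) +
      (if i = f3 then 27 else 0) + (if i = f4 then 64 else 0) : ℕ) : ZMod 5) := by
    intro i
    have p1 := S.c0_two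
    have p2 := S.c0_pi1
    have p3 := S.c0_pi2
    have p4 := S.c0_pi3
    have p5 := S.c0_pi4
    have q1 := cε i
    have q2 := cβ i
    have r0 : (S.Φ (ε i * β i ^ 5)).c0 ≠ 0 := by
      rw [S.c0_mul, S.c0_pow]; exact mul_ne_zero q1 (pow_ne_zero _ q2)
    have r1 : (S.Φ (ε i * β i ^ 5 * (2 + S.z ^ 4) ^ (if i = f4 then 1 else 0))).c0 ≠ 0 := by
      rw [S.c0_mul, S.c0_pow]; exact mul_ne_zero r0 (pow_ne_zero _ p5)
    have r2 : (S.Φ (ε i * β i ^ 5 * (2 + S.z ^ 4) ^ (if i = f4 then 1 else 0) *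
      (2 + S.z ^ 3) ^ (if i = f3 then 1 else 0))).c0 ≠ 0 := by
      rw [S.c0_mul, S.c0_pow]; exact mul_ne_zero r1 (pow_ne_zero _ p4)
    have r3 : (S.Φ (ε i * β i ^ 5 * (2 + S.z ^ 4) ^ (if i = f4 then 1 else 0) *
      (2 + S.z ^ 3) ^ (if i = f3 then 1 else 0) *
      (2 + S.z ^ 2) ^ (if i = f2 then 1 else 0))).c0 ≠ 0 := by
      rw [S.c0_mul, S.c0_pow]; exact mul_ne_zero r2 (pow_ne_zero _ p3)
    have r4 : (S.Φ (ε i * β i ^ 5 * (2 + S.z ^ 4) ^ (if i = f4 then 1 else 0) *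
      (2 + S.z ^ 3) ^ (if i = f3 then 1 else 0) *
      (2 + S.z ^ 2) ^ (if i = f2 then 1 else 0) *
      (2 + S.z ^ 1) ^ (if i = f1 then 1 else 0))).c0 ≠ 0 := by
      rw [S.c0_mul, S.c0_pow]; exact mul_ne_zero r3 (pow_ne_zero _ p2)
    rw [hA i, S.l3_mul r4 (by rw [S.c0_pow]; exact pow_ne_zero _ p1),
      S.l3_mul r3 (by rw [S.c0_pow]; exact pow_ne_zero _ p2),
      S.l3_mul r2 (by rw [S.c0_pow]; exact pow_ne_zero _ p3),
      S.l3_mul r1 (by rw [S.c0_pow]; exact pow_ne_zero _ p4),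
      S.l3_mul r0 (by rw [S.c0_pow]; exact pow_ne_zero _ p5),
      S.l3_mul q1 (by rw [S.c0_pow]; exact pow_ne_zero _ q2),
      S.l3_pow q2, S.l3_pow p1, S.l3_pow p2, S.l3_pow p3, S.l3_pow p4, S.l3_pow p5]
    have u1 : S.l3 (ε i : R) = 0 := S.L3_unit (ε i)
    have u2 : S.l3 2 = 0 := S.L3_two
    have u3 : S.l3 (2 + S.z ^ 1) = (1 : ℕ) := S.L3_pi1
    have u4 : S.l3 (2 + S.z ^ 2) = (8 : ℕ) := S.L3_pi2
    have u5 : S.l3 (2 + S.z ^ 3) = (27 : ℕ) := S.L3_pi3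
    have u6 : S.l3 (2 + S.z ^ 4) = (64 : ℕ) := S.L3_pi4
    have h50 : ((5 : ℕ) : ZMod 5) = 0 := by decide
    rw [u1, u2, u3, u4, u5, u6, h50, zero_mul, mul_zero, zero_add, zero_add, add_zero]
    push_cast
    simp only [ite_mul, one_mul, zero_mul]
    ring
  have hM : ∀ i, S.M (A i) = 16 ^ ((if i = f0 then 2 else 0) + (if i = f1 then 1 else 0) +
      (if i = f2 then 1 else 0) + (if i = f3 then 1 else 0) + (if i = f4 then 1 else 0)) := by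
    intro i
    rw [hA i]
    simp only [S.M_mul, S.M_unit]
    rw [S.M_fifth (hβ i)]
    simp only [S.M_pow, S.M_two, S.M_pi 1 (by norm_num) (by norm_num),
      S.M_pi 2 (by norm_num) (by norm_num), S.M_pi 3 (by norm_num) (by norm_num),
      S.M_pi 4 (by norm_num) (by norm_num)]
    have h12 : ((16 : ZMod 25) ^ 4) ^ (if i = f0 then 3 else 0) =
        16 ^ (if i = f0 then 2 else 0) := by
      split_ifs <;> decide
    rw [h12]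
    ring
  have hp := positions f0 f1 f2 f3 f4
    (by
      intro i hi
      have h1 : S.l3 (A i) = S.l3 (A 1) := by
        have := S.Φ_congr (a := A i) (b := A 1)
          (dvd_trans (pow_dvd_pow _ (by norm_num)) (hcong i hi))
        rw [l3, l3, this]
      rw [hl3 i, hl3 1] at h1
      exact (ZMod.natCast_eq_natCast_iff' _ _ 5).1 h1)
    (by
      intro i hi
      have h1 : S.M (A i) = S.M (A 1) := S.M_congr (hcong i hi)
      rw [hM i, hM 1] at h1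
      have b1 : ∀ j : Fin 5, ((if j = f0 then 2 else 0) + (if j = f1 then 1 else 0) +
        (if j = f2 then 1 else 0) + (if j = f3 then 1 else 0) + (if j = f4 then 1 else 0) : ℕ)
        < 7 := by
        intro j
        split_ifs <;> norm_num
      exact seven ⟨_, b1 i⟩ ⟨_, b1 1⟩ h1)
  obtain ⟨g0, g1, g2, g3, g4⟩ := hp
  subst g0 g1 g2 g3 g4
  refine ⟨ε, β, ?_, ?_⟩
  · rw [hA 0, h88]
    simp only [if_true]
    ring
  · intro i hi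
    rw [hA i]
    simp [hi]

end Setup

end Pool.Agent.Helper5.Quintic
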