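import Mathlib
import Pool.Agent.Helper5.Quintic.Descent

namespace Pool.Agent.Helper5.Quintic

namespace Setup

variable {R : Type*} [CommRing R] (S : Setup R)

/-- `z` as a unit. -/
def zu : Rˣ := ⟨S.z, S.z ^ 4, by linear_combination S.z5, by linear_combination S.z5⟩

/-- `1 + z` as a unit. -/
def z1u : Rˣ := ⟨1 + S.z, -(S.z + S.z ^ 3), by linear_combination -S.hz,
  by linear_combination -S.hz⟩

lemma not_dvd_unit (u : Rˣ) : ¬ (S.z - 1) ∣ (u : R) := fun h =>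
  S.lam_prime.not_isUnit (isUnit_of_dvd_unit h u.isUnit)

lemma not_dvd_88 : ¬ (S.z - 1) ∣ (88 : R) := by
  intro h
  have h1 : S.z - 1 ∣ (1 : R) := by
    have h2 : (S.z - 1) ∣ (5 : R) * (35) := Dvd.dvd.mul_right S.lam_dvd_five _
    have h3 := dvd_sub (Dvd.dvd.mul_right h 2) h2
    norm_num at h3
    exact h3
  exact S.lam_prime.not_isUnit (isUnit_of_dvd_one h1)

lemma zpow_congr (i : ℕ) : (S.z - 1) ^ 2 ∣ S.z ^ i - 1 - i * (S.z - 1) := by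
  induction i with
  | zero => simp
  | succ i ih =>
    have : S.z ^ (i + 1) - 1 - ((i + 1 : ℕ) : R) * (S.z - 1) =
        S.z * (S.z ^ i - 1 - i * (S.z - 1)) + (S.z - 1) ^ 2 * i := by
      push_cast; ring
    rw [this]
    exact dvd_add (Dvd.dvd.mul_left ih _) (dvd_mul_right _ _)

lemma exists_rot {X Y : R} (hY : ¬ (S.z - 1) ∣ Y) (h : (S.z - 1) ∣ X + Y) :
    ∃ i : ℕ, (S.z - 1) ^ 2 ∣ X + S.z ^ i * Y := by
  obtain ⟨s, hs⟩ := h
  obtain ⟨y, hy⟩ := S.int_rep Y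
  obtain ⟨m, hm⟩ := S.int_rep s
  have hy5 : ((y : ℤ) : ZMod 5) ≠ 0 := by
    intro h0
    rw [ZMod.intCast_zmod_eq_zero_iff_dvd] at h0
    have := dvd_add hy (S.lam_dvd_int (n := y) (by exact_mod_cast h0))
    simp at this
    exact hY this
  set i : ℕ := (-(m : ZMod 5) * (y : ZMod 5)⁻¹).val with hi
  have hi2 : (5 : ℤ) ∣ m + i * y := by
    have : (((m + i * y : ℤ)) : ZMod 5) = 0 := by
      push_cast
      rw [hi, ZMod.natCast_zmod_val]
      field_simp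
      ring
    rw [ZMod.intCast_zmod_eq_zero_iff_dvd] at this
    exact_mod_cast this
  refine ⟨i, ?_⟩
  obtain ⟨c, hc⟩ := S.zpow_congr i
  obtain ⟨d, hd⟩ := hy
  obtain ⟨e, he⟩ := hm
  obtain ⟨f, hf⟩ := S.lam_dvd_int hi2
  push_cast at hf
  refine ⟨c * Y + e + f + i * d, ?_⟩
  linear_combination hs + Y * hc + (S.z - 1) * he + (S.z - 1) * hf + (S.z - 1) * i * hd

lemma dvd_lam_of_dvd {P : R} (hP : Prime P) {i j : ℕ} (hij : i < j) (hj : j < 5)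
    (h : P ∣ S.z ^ i - S.z ^ j) : P ∣ S.z - 1 := by
  have h1 : S.z ^ i - S.z ^ j = -(S.z ^ i * (S.z ^ (j - i) - 1)) := by
    have : S.z ^ j = S.z ^ i * S.z ^ (j - i) := by rw [← pow_add]; congr 1; omega
    rw [this]; ring
  rw [h1, dvd_neg] at h
  have h2 : P ∣ S.z ^ (j - i) - 1 := by
    rcases hP.dvd_or_dvd h with h | h
    · exact absurd (isUnit_of_dvd_unit h ((S.zu ^ i).isUnit)) hP.not_isUnit
    · exact h
  have hm : j - i = 1 ∨ j - i = 2 ∨ j - i = 3 ∨ j - i = 4 := by omega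
  rcases hm with hm | hm | hm | hm <;> rw [hm] at h2
  · simpa using h2
  · have : S.z - 1 = (S.z ^ 2 - 1) * (S.z ^ 4 + S.z ^ 2 + 1) := by
      linear_combination -S.z * S.z5
    rw [this]; exact Dvd.dvd.mul_right h2 _
  · have : S.z - 1 = (S.z ^ 3 - 1) * (S.z ^ 3 + 1) := by
      linear_combination -S.z * S.z5
    rw [this]; exact Dvd.dvd.mul_right h2 _
  · have : S.z - 1 = (S.z ^ 4 - 1) * (-S.z) := by
      linear_combination S.z5
    rw [this]; exact Dvd.dvd.mul_right h2 _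

/-- The descent predicate. -/
def Sol (n : ℕ) : Prop := ∃ (X Y Z : R) (η : Rˣ), IsCoprime X Y ∧ ¬ (S.z - 1) ∣ Y ∧
  ¬ (S.z - 1) ∣ Z ∧ X ^ 5 + Y ^ 5 = η * 88 * ((S.z - 1) ^ n * Z) ^ 5

lemma step [IsDomain R] [IsPrincipalIdealRing R] (n : ℕ) (hn : 1 ≤ n) (h : S.Sol n) :
    2 ≤ n ∧ S.Sol (n - 1) := by
  obtain ⟨X, Y0, Z, η, hXY0, hY0, hZ, h0⟩ := h
  have hlp := S.lam_prime
  -- first rotation
  have hl1 : (S.z - 1) ∣ X + Y0 := by
    have h1 : (X + Y0) ^ 5 = X ^ 5 + Y0 ^ 5 + 5 * (X ^ 4 * Y0 + 2 * X ^ 3 * Y0 ^ 2 +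
      2 * X ^ 2 * Y0 ^ 3 + X * Y0 ^ 4) := by ring
    apply hlp.dvd_of_dvd_pow (n := 5)
    rw [h1, h0]
    apply dvd_add
    · apply Dvd.dvd.mul_left
      exact dvd_pow (Dvd.dvd.mul_right (dvd_pow_self _ (by omega)) _) (by norm_num)
    · exact Dvd.dvd.mul_right S.lam_dvd_five _
  obtain ⟨r, s, hs⟩ := S.exists_rot hY0 hl1
  set Y := S.z ^ r * Y0 with hYdef
  have hzr : IsUnit (S.z ^ r) := (S.zu ^ r).isUnit
  have hY : ¬ (S.z - 1) ∣ Y := by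
    intro hd
    rcases hlp.dvd_or_dvd hd with hd | hd
    · exact hlp.not_isUnit (isUnit_of_dvd_unit hd hzr)
    · exact hY0 hd
  have hXY : IsCoprime X Y := by
    rw [hYdef, isCoprime_mul_unit_left_right hzr]
    exact hXY0
  have h0 : X ^ 5 + Y ^ 5 = η * 88 * ((S.z - 1) ^ n * Z) ^ 5 := by
    rw [← h0, hYdef, mul_pow, ← pow_mul, mul_comm r 5, pow_mul, S.z5, one_pow, one_mul]
  -- the factors
  set B1 : R := -Y + (-1) * ((S.z - 1) * s) with hB1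
  set B2 : R := -Y + (S.z + S.z ^ 3) * ((S.z - 1) * s) with hB2
  set B3 : R := -Y + (-(1 + S.z ^ 3)) * ((S.z - 1) * s) with hB3
  set B4 : R := -Y + S.z * ((S.z - 1) * s) with hB4
  have F1 : X + S.z * Y = -(S.z - 1) * B1 := by
    rw [hB1]; linear_combination hs
  have F2 : X + S.z ^ 2 * Y = -(S.z - 1) * (1 + S.z) * B2 := by
    rw [hB2]; linear_combination hs + ((S.z - 1) ^ 2 * s) * S.hz
  have F3 : X + S.z ^ 3 * Y = -(S.z - 1) * (1 + S.z + S.z ^ 2) * B3 := by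
    rw [hB3]; linear_combination hs - (S.z - 1) ^ 2 * s * (S.hz + S.z5)
  have F4 : X + S.z ^ 4 * Y = (S.z - 1) * S.z ^ 4 * B4 := by
    rw [hB4]; linear_combination hs - ((S.z - 1) ^ 2 * s) * S.z5 + Y * S.z5
  have nB : ∀ v : R, ¬ (S.z - 1) ∣ -Y + v * ((S.z - 1) * s) := by
    intro v hd
    apply hY
    have h1 : (S.z - 1) ∣ v * ((S.z - 1) * s) := Dvd.dvd.mul_left (dvd_mul_right _ _) _
    have h2 := dvd_sub h1 hd
    simpa using h2
  have nB1 : ¬ (S.z - 1) ∣ B1 := nB _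
  have nB2 : ¬ (S.z - 1) ∣ B2 := nB _
  have nB3 : ¬ (S.z - 1) ∣ B3 := nB _
  have nB4 : ¬ (S.z - 1) ∣ B4 := nB _
  -- a unit
  set U : Rˣ := S.z1u * (S.zu ^ 4 * ⟨1 + S.z + S.z ^ 2, 1 + S.z ^ 3,
    by linear_combination (S.z5 + S.hz), by linear_combination (S.z5 + S.hz)⟩) with hU
  have hUv : (U : R) = (1 + S.z) * (S.z ^ 4 * (1 + S.z + S.z ^ 2)) := by
    simp [hU, z1u, zu]
  have hfac : X ^ 5 + Y ^ 5 = (X + Y) * (X + S.z * Y) * (X + S.z ^ 2 * Y) *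
      (X + S.z ^ 3 * Y) * (X + S.z ^ 4 * Y) := by
    linear_combination -(X ^ 4 * Y + X ^ 3 * Y ^ 2 * (S.z + S.z ^ 3) +
      X ^ 2 * Y ^ 3 * (S.z ^ 3 + S.z ^ 5) + X * Y ^ 4 * S.z ^ 6 +
      Y ^ 5 * (-1 + S.z - S.z ^ 5 + S.z ^ 6)) * S.hz
  have hprod : (S.z - 1) ^ 6 * (s * (-U) * (B1 * B2 * B3 * B4)) =
      η * 88 * ((S.z - 1) ^ n * Z) ^ 5 := by
    rw [← h0, hfac, F1, F2, F3, F4, hs, hUv]; ring
  have hrhs : ¬ (S.z - 1) ∣ η * 88 * Z ^ 5 := by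
    intro hd
    rcases hlp.dvd_or_dvd hd with hd | hd
    · rcases hlp.dvd_or_dvd hd with hd | hd
      · exact S.not_dvd_unit η hd
      · exact S.not_dvd_88 hd
    · exact hZ (hlp.dvd_of_dvd_pow hd)
  have hn2 : 2 ≤ n := by
    by_contra hlt
    have hn1 : n = 1 := by omega
    subst hn1
    apply hrhs
    have h1 : (S.z - 1) ^ 5 * ((S.z - 1) * (s * (-U) * (B1 * B2 * B3 * B4))) =
        (S.z - 1) ^ 5 * (η * 88 * Z ^ 5) := by
      linear_combination hprod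
    have h2 := mul_left_cancel₀ (pow_ne_zero 5 hlp.ne_zero) h1
    rw [← h2]
    exact dvd_mul_right _ _
  refine ⟨hn2, ?_⟩
  obtain ⟨m, rfl⟩ : ∃ m, n = m + 2 := ⟨n - 2, by omega⟩
  have hprod2 : s * ((-U) * (B1 * B2 * B3 * B4)) = (S.z - 1) ^ (5 * m + 4) *
      (η * 88 * Z ^ 5) := by
    have h1 : (S.z - 1) ^ 6 * (s * ((-U) * (B1 * B2 * B3 * B4))) =
        (S.z - 1) ^ 6 * ((S.z - 1) ^ (5 * m + 4) * (η * 88 * Z ^ 5)) := by
      have h2 : (S.z - 1) ^ 6 * ((S.z - 1) ^ (5 * m + 4) * (η * 88 * Z ^ 5)) =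
        η * 88 * ((S.z - 1) ^ (m + 2) * Z) ^ 5 := by
        rw [mul_pow, ← pow_mul]
        ring
      rw [h2, ← hprod]; ring
    exact mul_left_cancel₀ (pow_ne_zero 6 hlp.ne_zero) h1
  have hsd : (S.z - 1) ^ (5 * m + 4) ∣ s := by
    apply hlp.pow_dvd_of_dvd_mul_right _ (b := (-U) * (B1 * B2 * B3 * B4))
    · intro hd
      rcases hlp.dvd_or_dvd hd with hd | hd
      · exact S.not_dvd_unit U ((dvd_neg).1 hd)
      · rcases hlp.dvd_or_dvd hd with hd | hd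
        · rcases hlp.dvd_or_dvd hd with hd | hd
          · rcases hlp.dvd_or_dvd hd with hd | hd
            · exact nB1 hd
            · exact nB2 hd
          · exact nB3 hd
        · exact nB4 hd
    · rw [hprod2]; exact dvd_mul_right _ _
  obtain ⟨B0, hB0⟩ := hsd
  have hprod3 : B0 * ((-U) * (B1 * B2 * B3 * B4)) = η * 88 * Z ^ 5 := by
    have h1 : (S.z - 1) ^ (5 * m + 4) * (B0 * ((-U) * (B1 * B2 * B3 * B4))) =
        (S.z - 1) ^ (5 * m + 4) * (η * 88 * Z ^ 5) := by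
      rw [← hprod2, hB0]; ring
    exact mul_left_cancel₀ (pow_ne_zero _ hlp.ne_zero) h1
  have nB0 : ¬ (S.z - 1) ∣ B0 := fun hd => hrhs (by
    rw [← hprod3]; exact Dvd.dvd.mul_right hd _)
  have F0 : X + S.z ^ 0 * Y = (S.z - 1) ^ 2 * (S.z - 1) ^ (5 * m + 4) * B0 := by
    rw [pow_zero, one_mul, hs, hB0]; ring
  set A : Fin 5 → R := ![B0, B1, B2, B3, B4] with hA
  have dA : ∀ i : Fin 5, A i ∣ X + S.z ^ (i : ℕ) * Y := by
    intro i
    fin_cases i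
    · exact ⟨_, by rw [hA]; simp only [Fin.zero_eta, Matrix.cons_val_zero]; rw [F0, mul_comm]⟩
    · exact ⟨-(S.z - 1), by simp only [hA, Fin.mk_one, Matrix.cons_val_one, Matrix.cons_val_zero, pow_one]; rw [F1]; ring⟩
    · exact ⟨-(S.z - 1) * (1 + S.z), by
        show X + S.z ^ 2 * Y = B2 * _
        rw [F2]; ring⟩
    · exact ⟨-(S.z - 1) * (1 + S.z + S.z ^ 2), by
        show X + S.z ^ 3 * Y = B3 * _
        rw [F3]; ring⟩
    · exact ⟨(S.z - 1) * S.z ^ 4, by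
        show X + S.z ^ 4 * Y = B4 * _
        rw [F4]; ring⟩
  have nA : ∀ i, ¬ (S.z - 1) ∣ A i := by
    intro i
    fin_cases i
    · exact nB0
    · exact nB1
    · exact nB2
    · exact nB3
    · exact nB4
  have copA : ∀ i j : Fin 5, i < j → IsCoprime (A i) (A j) := by
    intro i j hij
    apply isCoprime_of_prime_dvd
    · rintro ⟨h1, -⟩
      exact nA i (by rw [h1]; exact dvd_zero _)
    · intro P hP h1 h2
      have g1 := h1.trans (dA i)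
      have g2 := h2.trans (dA j)
      have g3 : P ∣ (S.z ^ (i : ℕ) - S.z ^ (j : ℕ)) * Y := by
        have := dvd_sub g1 g2
        convert this using 1; ring
      have g4 : P ∣ (S.z ^ (i : ℕ) - S.z ^ (j : ℕ)) * X := by
        have := dvd_sub (Dvd.dvd.mul_left g2 (S.z ^ (i : ℕ))) (Dvd.dvd.mul_left g1 (S.z ^ (j : ℕ)))
        convert this using 1; ring
      obtain ⟨a, b, hab⟩ := hXY
      have g5 : P ∣ S.z ^ (i : ℕ) - S.z ^ (j : ℕ) := by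
        have := dvd_add (Dvd.dvd.mul_left g4 a) (Dvd.dvd.mul_left g3 b)
        convert this using 1
        linear_combination (-(S.z ^ (i : ℕ) - S.z ^ (j : ℕ))) * hab
      have g6 : P ∣ S.z - 1 := S.dvd_lam_of_dvd hP (by exact_mod_cast hij) j.isLt g5
      have g7 : Associated P (S.z - 1) := hP.associated_of_dvd hlp g6
      exact nA i (g7.symm.dvd.trans h1)
  have copA2 : ∀ i j : Fin 5, i ≠ j → IsCoprime (A i) (A j) := by
    intro i j hij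
    rcases lt_or_gt_of_ne hij with h | h
    · exact copA i j h
    · exact (copA j i h).symm
  have congA : ∀ i : Fin 5, i ≠ 0 → (S.z - 1) ^ 5 ∣ A i - A 1 := by
    have key1 : ∀ v w : R, (S.z - 1) ^ 5 ∣ (-Y + v * ((S.z - 1) * s)) -
        (-Y + w * ((S.z - 1) * s)) := by
      intro v w
      have : (-Y + v * ((S.z - 1) * s)) - (-Y + w * ((S.z - 1) * s)) =
          (S.z - 1) ^ 5 * ((S.z - 1) ^ (5 * m) * ((v - w) * B0)) := by
        rw [hB0]; ring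
      rw [this]; exact dvd_mul_right _ _
    intro i hi
    fin_cases i
    · exact absurd rfl hi
    · exact key1 _ _
    · exact key1 _ _
    · exact key1 _ _
    · exact key1 _ _
  have prodA : ∏ i, A i = ((η * (-U)⁻¹ : Rˣ) : R) * 88 * Z ^ 5 := by
    have h1 : ∏ i, A i = B0 * B1 * B2 * B3 * B4 := by
      rw [Fin.prod_univ_five]; rfl
    have h2 : ((-U)⁻¹ : Rˣ) * (-U : R) = 1 := by
      have := Units.inv_mul (-U)
      simpa using this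
    rw [h1, Units.val_mul]
    calc B0 * B1 * B2 * B3 * B4 = (((-U)⁻¹ : Rˣ) * (-U : R)) * (B0 * B1 * B2 * B3 * B4) := by
          rw [h2, one_mul]
      _ = ((-U)⁻¹ : Rˣ) * (B0 * ((-U) * (B1 * B2 * B3 * B4))) := by ring
      _ = _ := by rw [hprod3]; ring
  obtain ⟨ε, β, e0, e1⟩ := S.key A copA2 nA congA _ Z prodA
  have a0 : B0 = ε 0 * 88 * β 0 ^ 5 := e0
  have a1 : B1 = ε 1 * β 1 ^ 5 := e1 1 (by decide)
  have a4 : B4 = ε 4 * β 4 ^ 5 := e1 4 (by decide)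
  have n1 : ¬ (S.z - 1) ∣ β 1 := fun hd => nB1 (by
    rw [a1]; exact Dvd.dvd.mul_left (dvd_pow hd (by norm_num)) _)
  have n4 : ¬ (S.z - 1) ∣ β 4 := fun hd => nB4 (by
    rw [a4]; exact Dvd.dvd.mul_left (dvd_pow hd (by norm_num)) _)
  have n0 : ¬ (S.z - 1) ∣ β 0 := fun hd => nB0 (by
    rw [a0]; exact Dvd.dvd.mul_left (dvd_pow hd (by norm_num)) _)
  have hrel : ε 4 * β 4 ^ 5 - ε 1 * β 1 ^ 5 =
      (1 + S.z) * (S.z - 1) ^ (5 * (m + 1)) * (ε 0 * 88 * β 0 ^ 5) := by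
    rw [← a4, ← a1, ← a0, hB4, hB1, hB0]; ring
  -- Kummer
  have c1 := S.c0_ne n1
  have c4 := S.c0_ne n4
  have cε : ∀ i, (S.Φ (ε i : R)).c0 ≠ 0 := fun i => T.unit_c0 (Units.map S.Φ.toMonoidHom (ε i))
  have hΦeq : S.Φ (ε 4 * β 4 ^ 5) = S.Φ (ε 1 * β 1 ^ 5) := by
    apply S.Φ_congr
    rw [hrel]
    exact Dvd.dvd.mul_right (Dvd.dvd.mul_left (pow_dvd_pow _ (by omega)) _) _
  have h50 : ((5 : ℕ) : ZMod 5) = 0 := by decide
  have hc5 : ∀ i, (S.Φ (β i)).c0 ≠ 0 → (S.Φ (β i) ^ 5).c0 ≠ 0 := by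
    intro i hi
    rw [T.pow_c0]; exact pow_ne_zero _ hi
  have hL1 : T.L1 (S.Φ (ε 4 : R)) = T.L1 (S.Φ (ε 1 : R)) := by
    have := congrArg T.L1 hΦeq
    rw [map_mul, map_mul, map_pow, map_pow, T.L1_mul (cε 4) (hc5 4 c4),
      T.L1_mul (cε 1) (hc5 1 c1), T.L1_pow c4, T.L1_pow c1, h50] at this
    simpa using this
  have hL2 : T.L2 (S.Φ (ε 4 : R)) = T.L2 (S.Φ (ε 1 : R)) := by
    have := congrArg T.L2 hΦeq
    rw [map_mul, map_mul, map_pow, map_pow, T.L2_mul (cε 4) (hc5 4 c4),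
      T.L2_mul (cε 1) (hc5 1 c1), T.L2_pow c4, T.L2_pow c1, h50] at this
    simpa using this
  obtain ⟨w, hw⟩ : ∃ w : Rˣ, ε 1 * (ε 4)⁻¹ = w ^ 5 := by
    have hcm : ε 1 = (ε 1 * (ε 4)⁻¹) * ε 4 := by group
    have cu : (S.Φ ((ε 1 * (ε 4)⁻¹ : Rˣ) : R)).c0 ≠ 0 :=
      T.unit_c0 (Units.map S.Φ.toMonoidHom (ε 1 * (ε 4)⁻¹))
    apply S.kummer
    · have h2 : T.L1 (S.Φ (ε 1 : R)) = T.L1 (S.Φ ((ε 1 * (ε 4)⁻¹ : Rˣ) : R)) +
          T.L1 (S.Φ (ε 4 : R)) := by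
        rw [← T.L1_mul cu (cε 4), ← map_mul, ← Units.val_mul, ← hcm]
      rw [hL1] at h2
      simpa using h2
    · have h2 : T.L2 (S.Φ (ε 1 : R)) = T.L2 (S.Φ ((ε 1 * (ε 4)⁻¹ : Rˣ) : R)) +
          T.L2 (S.Φ (ε 4 : R)) := by
        rw [← T.L2_mul cu (cε 4), ← map_mul, ← Units.val_mul, ← hcm]
      rw [hL2] at h2
      simpa using h2
  have hw2 : (ε 1 : R) = ε 4 * (w : R) ^ 5 := by
    have : ε 1 = ε 4 * w ^ 5 := by rw [← hw, mul_comm, inv_mul_cancel_right]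
    rw [this]; simp
  refine ⟨β 4, -(w * β 1), β 0, S.z1u * ε 0 * (ε 4)⁻¹, ?_, ?_, n0, ?_⟩
  · have h1 : IsCoprime (A 4) (A 1) := copA2 4 1 (by decide)
    have h2 : IsCoprime (ε 4 * β 4 ^ 5) (ε 1 * β 1 ^ 5) := by
      rw [← a4, ← a1]; exact h1
    have h3 : IsCoprime (β 4 ^ 5) (β 1 ^ 5) := h2.of_mul_left_right.of_mul_right_right
    have h4 : IsCoprime (β 4) (β 1) := (IsCoprime.pow_iff (by norm_num) (by norm_num)).1 h3
    apply IsCoprime.neg_right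
    rw [isCoprime_mul_unit_left_right w.isUnit]
    exact h4
  · intro hd
    rw [dvd_neg] at hd
    rcases hlp.dvd_or_dvd hd with hd | hd
    · exact S.not_dvd_unit w hd
    · exact n1 hd
  · have h1 : m + 2 - 1 = m + 1 := by omega
    rw [h1]
    have h3 : ((ε 4)⁻¹ : Rˣ) * (ε 4 : R) = 1 := Units.inv_mul _
    have h2 : (ε 4 : R) * (β 4 ^ 5 + (-(w * β 1)) ^ 5) = (1 + S.z) * (S.z - 1) ^ (5 * (m + 1)) *
        (ε 0 * 88 * β 0 ^ 5) := by
      rw [← hrel, hw2]; ring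
    calc β 4 ^ 5 + (-(w * β 1)) ^ 5 = (((ε 4)⁻¹ : Rˣ) * (ε 4 : R)) * (β 4 ^ 5 + (-(w * β 1)) ^ 5) := by
          rw [h3, one_mul]
      _ = ((ε 4)⁻¹ : Rˣ) * ((ε 4 : R) * (β 4 ^ 5 + (-(w * β 1)) ^ 5)) := by ring
      _ = _ := by
        rw [h2, Units.val_mul, Units.val_mul]
        simp only [z1u]
        ring

lemma no_sol [IsDomain R] [IsPrincipalIdealRing R] (n : ℕ) (hn : 1 ≤ n) : ¬ S.Sol n := by
  induction n with
  | zero => omega
  | succ n ih =>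
    intro h
    obtain ⟨h1, h2⟩ := S.step (n + 1) hn h
    exact ih (by omega) h2

end Setup

end Pool.Agent.Helper5.Quintic
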