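import Mathlib
import Pool.Agent.Helper5.Quintic.Step




namespace Pool.Agent.Helper5.Quintic

open NumberField IsCyclotomicExtension.Rat

abbrev K := CyclotomicField 5 ℚ

instance neZero5 : NeZero ((5 : ℕ) : ℚ) := ⟨by norm_num⟩

instance cycK : IsCyclotomicExtension {5} ℚ K := CyclotomicField.isCyclotomicExtension 5 ℚ

instance nfK : NumberField K := IsCyclotomicExtension.numberField {5} ℚ K

abbrev O := 𝓞 K

lemma hζ : IsPrimitiveRoot (IsCyclotomicExtension.zeta 5 ℚ K) 5 :=
  IsCyclotomicExtension.zeta_spec 5 ℚ K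

instance pidO : IsPrincipalIdealRing O := IsCyclotomicExtension.Rat.five_pid K

noncomputable def z : O := hζ.toInteger

lemma z_prim : IsPrimitiveRoot z 5 := hζ.toInteger_isPrimitiveRoot

lemma hz : 1 + z + z ^ 2 + z ^ 3 + z ^ 4 = 0 := by
  have := z_prim.geom_sum_eq_zero (by norm_num)
  simpa [Finset.sum_range_succ] using this

lemma lam_prime : Prime (z - 1) := hζ.zeta_sub_one_prime'

lemma dimpb : hζ.integralPowerBasis.dim = 4 := by
  rw [IsPrimitiveRoot.integralPowerBasis_dim]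
  decide

noncomputable def B : Module.Basis (Fin 4) ℤ O :=
  hζ.integralPowerBasis.basis.reindex (finCongr dimpb)

lemma B_apply (i : Fin 4) : B i = z ^ (i : ℕ) := by
  simp only [B, Module.Basis.reindex_apply, PowerBasis.coe_basis,
    IsPrimitiveRoot.integralPowerBasis_gen, finCongr_symm, finCongr_apply, Fin.val_cast]
  rfl

lemma coords (x : O) : ∃ a b c d : ℤ, x = a + b * z + c * z ^ 2 + d * z ^ 3 := by
  refine ⟨B.repr x 0, B.repr x 1, B.repr x 2, B.repr x 3, ?_⟩
  conv_lhs => rw [← B.sum_repr x]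
  rw [Fin.sum_univ_four]
  simp [B_apply]

lemma coords_unique {a b c d : ℤ} (h : (a : O) + b * z + c * z ^ 2 + d * z ^ 3 = 0) :
    a = 0 ∧ b = 0 ∧ c = 0 ∧ d = 0 := by
  have h1 := Fintype.linearIndependent_iff.1 B.linearIndependent ![a, b, c, d] (by
    rw [Fin.sum_univ_four]
    simpa [B_apply] using h)
  exact ⟨h1 0, h1 1, h1 2, h1 3⟩

lemma lam_dvd_pow_sub (i : ℕ) : z - 1 ∣ z ^ i - 1 := sub_one_dvd_pow_sub_one z i

lemma int_rep (x : O) : ∃ n : ℤ, z - 1 ∣ x - n := by
  obtain ⟨a, b, c, d, rfl⟩ := coords x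
  refine ⟨a + b + c + d, ?_⟩
  have : (a : O) + b * z + c * z ^ 2 + d * z ^ 3 - ((a + b + c + d : ℤ) : O) =
      b * (z - 1) + c * (z ^ 2 - 1) + d * (z ^ 3 - 1) := by push_cast; ring
  rw [this]
  exact dvd_add (dvd_add (dvd_mul_left _ _) (Dvd.dvd.mul_left (lam_dvd_pow_sub 2) _))
    (Dvd.dvd.mul_left (lam_dvd_pow_sub 3) _)

lemma minpoly_z : minpoly ℤ z = Polynomial.cyclotomic 5 ℤ := by
  rw [← NumberField.RingOfIntegers.minpoly_coe]
  exact (Polynomial.cyclotomic_eq_minpoly hζ (Nat.succ_pos 4)).symm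

lemma aevalE : Polynomial.aeval T.E (minpoly ℤ hζ.integralPowerBasis.gen) = 0 := by
  rw [IsPrimitiveRoot.integralPowerBasis_gen]
  have h : minpoly ℤ hζ.toInteger = Polynomial.cyclotomic 5 ℤ := minpoly_z
  rw [h, Polynomial.cyclotomic_prime]
  simp only [Finset.sum_range_succ,
    Finset.sum_range_zero, pow_zero, pow_one, zero_add, map_add, map_one, map_pow,
    Polynomial.aeval_X]
  exact T.E_cyc

noncomputable def Φ : O →+* T := (hζ.integralPowerBasis.lift T.E aevalE).toRingHom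

lemma Φ_z : Φ z = T.E := by
  have := hζ.integralPowerBasis.lift_gen T.E aevalE
  rw [IsPrimitiveRoot.integralPowerBasis_gen] at this
  exact this

end Pool.Agent.Helper5.Quintic
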