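import Mathlib
import Pool.Agent.Helper5.Quintic.Inst

namespace Pool.Agent.Helper5.Quintic

open NumberField IsCyclotomicExtension.Rat Polynomial

lemma finrankO : Module.finrank ℤ O = 4 := by
  rw [Module.finrank_eq_card_basis B]; simp

noncomputable def N : O →* ℤ := Algebra.norm ℤ

lemma N_int (n : ℤ) : N n = n ^ 4 := by
  have h := Algebra.norm_algebraMap_of_basis B n
  simpa [N] using h

attribute [local instance] FractionRing.liftAlgebra in
lemma N_prod (x : O) : ((N x : ℤ) : O) = ∏ σ : O ≃ₐ[ℤ] O, σ x := by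
  have : IsGalois ℚ K := IsCyclotomicExtension.isGalois {5} ℚ K
  have : IsGalois (FractionRing ℤ) (FractionRing (𝓞 K)) := by
    refine IsGalois.of_equiv_equiv (f := (FractionRing.algEquiv ℤ ℚ).toRingEquiv.symm)
      (g := (FractionRing.algEquiv (𝓞 K) K).toRingEquiv.symm) <|
        RingHom.ext fun x ↦ IsFractionRing.algEquiv_commutes (FractionRing.algEquiv ℤ ℚ).symm
          (FractionRing.algEquiv (𝓞 K) K).symm _
  have h := Algebra.algebraMap_intNorm_of_isGalois (A := ℤ) (B := O) (x := x)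
  rw [Algebra.intNorm_eq_norm] at h
  rw [← h]
  rfl

lemma N_congr_pow (k : ℕ) (a b : O) (h : (z - 1) ^ k ∣ a - b) :
    (z - 1) ^ k ∣ ((N a - N b : ℤ) : O) := by
  push_cast
  rw [N_prod, N_prod, ← Ideal.mem_span_singleton, ← Ideal.Quotient.mk_eq_mk_iff_sub_mem,
    map_prod, map_prod]
  apply Finset.prod_congr rfl
  intro σ _
  rw [Ideal.Quotient.mk_eq_mk_iff_sub_mem, Ideal.mem_span_singleton, ← map_sub]
  have h1 : Associated (z - 1) (σ (z - 1)) := z_prim.associated_sub_one_map_sub_one σ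
  have h2 : σ ((z - 1) ^ k) ∣ σ (a - b) := map_dvd σ h
  rw [map_pow] at h2
  exact (h1.pow_pow (n := k)).dvd.trans h2

lemma lam_dvd_int_iff {n : ℤ} : z - 1 ∣ (n : O) ↔ (5 : ℤ) ∣ n := by
  have := zeta_sub_one_dvd_intCast_iff' (p := 5) hζ (n := n)
  exact_mod_cast this

lemma N_congr1 (a b : O) (h : (z - 1) ∣ a - b) : (5 : ℤ) ∣ N a - N b := by
  have h1 := N_congr_pow 1 a b (by simpa using h)
  rw [pow_one] at h1
  exact lam_dvd_int_iff.1 h1

lemma five_eq : (5 : O) = (z - 1) ^ 4 * (-1 - z + z ^ 3) := by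
  linear_combination (-z ^ 3 + 5 * z ^ 2 - 9 * z + 6) * hz

lemma five_unit : IsUnit (-1 - z + z ^ 3) := by
  apply IsUnit.of_mul_eq_one (-z + z ^ 2 - z ^ 3)
  linear_combination (-z ^ 2 + 2 * z - 1) * hz

lemma N_congr (a b : O) (h : (z - 1) ^ 5 ∣ a - b) : (25 : ℤ) ∣ N a - N b := by
  have h1 := N_congr_pow 5 a b h
  have h2 : z - 1 ∣ ((N a - N b : ℤ) : O) := (dvd_pow_self _ (by norm_num)).trans h1
  obtain ⟨m, hm⟩ := lam_dvd_int_iff.1 h2
  rw [hm] at h1 ⊢
  push_cast at h1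
  rw [five_eq] at h1
  have h3 : (z - 1) ^ 4 * (z - 1) ∣ (z - 1) ^ 4 * ((-1 - z + z ^ 3) * (m : O)) := by
    rw [← pow_succ, ← mul_assoc]
    exact h1
  have h4 := (mul_dvd_mul_iff_left (pow_ne_zero 4 lam_prime.ne_zero)).1 h3
  have h5 : z - 1 ∣ (m : O) := (five_unit.dvd_mul_left).1 h4
  obtain ⟨k, hk⟩ := lam_dvd_int_iff.1 h5
  exact ⟨k, by rw [hk]; ring⟩

lemma norm_two_add {ξ : K} (hξ : IsPrimitiveRoot ξ 5) : Algebra.norm ℚ (2 + ξ) = 11 := by
  have hirr : Irreducible (cyclotomic 5 ℚ) := cyclotomic.irreducible_rat (by norm_num)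
  have := IsCyclotomicExtension.neZero' 5 ℚ K
  let E := AlgebraicClosure K
  obtain ⟨w, hw⟩ := IsAlgClosed.exists_root _ (degree_cyclotomic_pos 5 E (by norm_num)).ne.symm
  apply (algebraMap ℚ E).injective
  let := IsCyclotomicExtension.finiteDimensional {5} ℚ K
  let := IsCyclotomicExtension.isGalois {5} ℚ K
  rw [Algebra.norm_eq_prod_embeddings]
  have h1 : ∀ σ : K →ₐ[ℚ] E, σ (2 + ξ) = (-1) * (-2 - σ ξ) := by
    intro σ
    rw [map_add]
    have : σ 2 = 2 := map_ofNat σ 2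
    rw [this]; ring
  simp_rw [h1]
  rw [Finset.prod_mul_distrib, Finset.prod_const, Finset.card_univ, AlgHom.card,
    IsCyclotomicExtension.finrank K hirr]
  have Hprod : (Finset.univ.prod fun σ : K →ₐ[ℚ] E => -2 - σ ξ) = eval (-2) (cyclotomic' 5 E) := by
    rw [cyclotomic', eval_prod, ← @Finset.prod_attach E E, ← Finset.univ_eq_attach]
    refine Fintype.prod_equiv (hξ.embeddingsEquivPrimitiveRoots E hirr) _ _ fun σ => ?_
    simp
  have : NeZero ((5 : ℕ) : E) := NeZero.of_faithfulSMul ℚ _ 5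
  rw [Hprod, cyclotomic', ← cyclotomic_eq_prod_X_sub_primitiveRoots (isRoot_cyclotomic_iff.1 hw),
    cyclotomic_prime]
  simp only [Finset.sum_range_succ, Finset.sum_range_zero, pow_zero, pow_one, zero_add]
  simp only [eval_add, eval_one, eval_X, eval_pow]
  have ht : Nat.totient 5 = 4 := by decide
  rw [ht]
  norm_num

lemma N_two_add {k : ℕ} (h1 : 1 ≤ k) (h4 : k ≤ 4) : N (2 + z ^ k) = 11 := by
  have hc : Nat.Coprime k 5 := by
    rw [Nat.coprime_comm]
    apply (Nat.Prime.coprime_iff_not_dvd (by norm_num)).2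
    omega
  have hp : IsPrimitiveRoot ((IsCyclotomicExtension.zeta 5 ℚ K) ^ k) 5 :=
    hζ.pow_of_coprime k hc
  have h2 := norm_two_add hp
  have h3 : ((N (2 + z ^ k) : ℤ) : ℚ) = Algebra.norm ℚ ((2 + z ^ k : O) : K) :=
    Algebra.coe_norm_int _
  have h5 : ((2 + z ^ k : O) : K) = 2 + (IsCyclotomicExtension.zeta 5 ℚ K) ^ k := by
    push_cast
    rfl
  rw [h5, h2] at h3
  exact_mod_cast h3

lemma pi_prime {k : ℕ} (h1 : 1 ≤ k) (h4 : k ≤ 4) : Prime (2 + z ^ k) := by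
  have hN := N_two_add h1 h4
  apply Ideal.prime_of_irreducible_absNorm_span
  · intro h0
    rw [h0] at hN
    have : N 0 = 0 := by simpa using N_int 0
    rw [this] at hN
    norm_num at hN
  · rw [Ideal.absNorm_span_singleton]
    have h2 : Algebra.norm ℤ (2 + z ^ k) = 11 := hN
    rw [h2]
    norm_num
    exact Nat.prime_iff.1 (by norm_num : Nat.Prime 11) |>.irreducible

set_option synthInstance.maxSize 2000 in
lemma two_aux : ∀ a b c d a' b' c' d' : ZMod 2,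
    a * a' + (c * d' + d * c') - (b * d' + c * c' + d * b') = 0 →
    a * b' + b * a' + d * d' - (b * d' + c * c' + d * b') = 0 →
    a * c' + b * b' + c * a' - (b * d' + c * c' + d * b') = 0 →
    a * d' + b * c' + c * b' + d * a' - (b * d' + c * c' + d * b') = 0 →
    (a = 0 ∧ b = 0 ∧ c = 0 ∧ d = 0) ∨ (a' = 0 ∧ b' = 0 ∧ c' = 0 ∧ d' = 0) := by
  decide +kernel

lemma two_dvd {a b c d : ℤ} (h : (2 : O) ∣ a + b * z + c * z ^ 2 + d * z ^ 3) :
    (2 : ℤ) ∣ a ∧ (2 : ℤ) ∣ b ∧ (2 : ℤ) ∣ c ∧ (2 : ℤ) ∣ d := by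
  obtain ⟨y, hy⟩ := h
  obtain ⟨a', b', c', d', rfl⟩ := coords y
  have h0 : ((a - 2 * a' : ℤ) : O) + ((b - 2 * b' : ℤ) : O) * z + ((c - 2 * c' : ℤ) : O) * z ^ 2 +
      ((d - 2 * d' : ℤ) : O) * z ^ 3 = 0 := by
    push_cast
    linear_combination hy
  obtain ⟨h1, h2, h3, h4⟩ := coords_unique h0
  exact ⟨⟨a', by omega⟩, ⟨b', by omega⟩, ⟨c', by omega⟩, ⟨d', by omega⟩⟩

lemma two_prime : Prime (2 : O) := by
  refine ⟨by norm_num, ?_, ?_⟩
  · intro hu
    have h1 : (2 : O) ∣ ((1 : ℤ) : O) + ((0 : ℤ) : O) * z + ((0 : ℤ) : O) * z ^ 2 +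
        ((0 : ℤ) : O) * z ^ 3 := by
      exact hu.dvd
    have := (two_dvd h1).1
    norm_num at this
  · intro x y hxy
    obtain ⟨a, b, c, d, rfl⟩ := coords x
    obtain ⟨a', b', c', d', rfl⟩ := coords y
    have h1 : ((a : O) + b * z + c * z ^ 2 + d * z ^ 3) * (a' + b' * z + c' * z ^ 2 + d' * z ^ 3) =
        ((a * a' + (c * d' + d * c') - (b * d' + c * c' + d * b') : ℤ) : O) +
        ((a * b' + b * a' + d * d' - (b * d' + c * c' + d * b') : ℤ) : O) * z +
        ((a * c' + b * b' + c * a' - (b * d' + c * c' + d * b') : ℤ) : O) * z ^ 2 +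
        ((a * d' + b * c' + c * b' + d * a' - (b * d' + c * c' + d * b') : ℤ) : O) * z ^ 3 := by
      push_cast
      linear_combination ((b * d' + c * c' + d * b' : O) + (c * d' + d * c') * (z - 1) +
        d * d' * (z - 1) * z) * hz
    rw [h1] at hxy
    obtain ⟨e1, e2, e3, e4⟩ := two_dvd hxy
    have cast0 : ∀ n : ℤ, (2 : ℤ) ∣ n → (n : ZMod 2) = 0 := fun n hn =>
      (ZMod.intCast_zmod_eq_zero_iff_dvd n 2).2 (by exact_mod_cast hn)
    have cast1 : ∀ n : ℤ, (n : ZMod 2) = 0 → (2 : ℤ) ∣ n := fun n hn => by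
      have := (ZMod.intCast_zmod_eq_zero_iff_dvd n 2).1 hn
      exact_mod_cast this
    have f1 := cast0 _ e1
    have f2 := cast0 _ e2
    have f3 := cast0 _ e3
    have f4 := cast0 _ e4
    push_cast at f1 f2 f3 f4
    rcases two_aux _ _ _ _ _ _ _ _ f1 f2 f3 f4 with ⟨g1, g2, g3, g4⟩ | ⟨g1, g2, g3, g4⟩
    · left
      have cd : ∀ n : ℤ, (n : ZMod 2) = 0 → (2 : O) ∣ (n : O) := fun n hn => by
        have := (Int.castRingHom O).map_dvd (cast1 n hn)
        simpa using this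
      exact dvd_add (dvd_add (dvd_add (cd _ g1) (Dvd.dvd.mul_right (cd _ g2) _))
        (Dvd.dvd.mul_right (cd _ g3) _)) (Dvd.dvd.mul_right (cd _ g4) _)
    · right
      have cd : ∀ n : ℤ, (n : ZMod 2) = 0 → (2 : O) ∣ (n : O) := fun n hn => by
        have := (Int.castRingHom O).map_dvd (cast1 n hn)
        simpa using this
      exact dvd_add (dvd_add (dvd_add (cd _ g1) (Dvd.dvd.mul_right (cd _ g2) _))
        (Dvd.dvd.mul_right (cd _ g3) _)) (Dvd.dvd.mul_right (cd _ g4) _)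

end Pool.Agent.Helper5.Quintic
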