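import Mathlib
import Pool.Agent.Helper5.Quintic.Norm

namespace Pool.Agent.Helper5.Quintic

open NumberField IsCyclotomicExtension.Rat Polynomial

lemma rankK : NumberField.Units.rank K = 1 := by
  dsimp only [NumberField.Units.rank]
  rw [InfinitePlace.card_eq_nrRealPlaces_add_nrComplexPlaces,
    nrRealPlaces_eq_zero (n := 5) K (by decide), zero_add,
    nrComplexPlaces_eq_totient_div_two (n := 5)]
  decide

/-- The fundamental unit. -/
noncomputable def fu : Oˣ := NumberField.Units.fundSystem K ⟨0, by rw [rankK]; norm_num⟩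

noncomputable def zun : Oˣ := ⟨z, z ^ 4, by linear_combination (z - 1) * hz,
  by linear_combination (z - 1) * hz⟩

noncomputable def z1un : Oˣ := ⟨1 + z, -(z + z ^ 3), by linear_combination -hz,
  by linear_combination -hz⟩

lemma unit_form (u : Oˣ) : ∃ (s : Oˣ) (r : ℕ) (e : ℤ), (s = 1 ∨ s = -1) ∧
    u = s * zun ^ r * fu ^ e := by
  obtain ⟨⟨x, e⟩, hxu, -⟩ := NumberField.Units.exist_unique_eq_mul_prod K u
  have hprod : ∏ i, NumberField.Units.fundSystem K i ^ e i =
      fu ^ (e ⟨0, by rw [rankK]; norm_num⟩) := by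
    apply Fintype.prod_eq_single
    intro i hi
    exfalso
    apply hi
    apply Fin.ext
    have h1 : (i : ℕ) < NumberField.Units.rank K := i.isLt
    have h2 := rankK
    simp only
    omega
  simp only at hxu
  rw [hprod] at hxu
  obtain ⟨n, hnpos, hn⟩ := isOfFinOrder_iff_pow_eq_one.1 <| (CommGroup.mem_torsion _).1 x.2
  have hn' : (((x : Oˣ) : O) : K) ^ n = 1 := by
    have h1 : ((x : Oˣ) : O) ^ n = 1 := by
      rw [← Units.val_pow_eq_pow_val, hn, Units.val_one]
    have h2 := congrArg (fun y : O => (y : K)) h1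
    simpa using h2
  obtain ⟨r, hr5, hru⟩ := hζ.exists_pow_or_neg_mul_pow_of_isOfFinOrder (by decide)
    (isOfFinOrder_iff_pow_eq_one.2 ⟨n, hnpos, hn'⟩)
  rcases hru with h | h
  · refine ⟨1, r, e ⟨0, by rw [rankK]; norm_num⟩, Or.inl rfl, ?_⟩
    rw [hxu]
    congr 1
    rw [one_mul]
    ext
    simp only [zun, Units.val_pow_eq_pow_val]
    rw [h]
    rfl
  · refine ⟨-1, r, e ⟨0, by rw [rankK]; norm_num⟩, Or.inr rfl, ?_⟩
    rw [hxu]
    congr 1
    ext
    simp only [zun, Units.val_pow_eq_pow_val, Units.val_mul, Units.val_neg, Units.val_one]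
    rw [h]
    push_cast
    rw [neg_one_mul]
    rfl

noncomputable def h1 : Oˣ →* Multiplicative (ZMod 5) := T.L1h.comp (Units.map Φ.toMonoidHom)
noncomputable def h2 : Oˣ →* Multiplicative (ZMod 5) := T.L2h.comp (Units.map Φ.toMonoidHom)
noncomputable def h3 : Oˣ →* Multiplicative (ZMod 5) := T.L3h.comp (Units.map Φ.toMonoidHom)

lemma h1_apply (u : Oˣ) : h1 u = Multiplicative.ofAdd (T.L1 (Φ (u : O))) := rfl
lemma h2_apply (u : Oˣ) : h2 u = Multiplicative.ofAdd (T.L2 (Φ (u : O))) := rfl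
lemma h3_apply (u : Oˣ) : h3 u = Multiplicative.ofAdd (T.L3 (Φ (u : O))) := rfl

lemma L1_form (s : Oˣ) (hs : s = 1 ∨ s = -1) (r : ℕ) (e : ℤ) :
    T.L1 (Φ ((s * zun ^ r * fu ^ e : Oˣ) : O)) = r + e * T.L1 (Φ (fu : O)) := by
  have hs1 : h1 s = 1 := by
    rcases hs with rfl | rfl
    · exact map_one _
    · rw [h1_apply]
      simp only [Units.val_neg, Units.val_one, map_neg, map_one]
      decide
  have hz1 : h1 zun = Multiplicative.ofAdd 1 := by
    rw [h1_apply]
    simp only [zun, Φ_z]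
    decide
  have h := h1_apply (s * zun ^ r * fu ^ e)
  rw [map_mul, map_mul, map_pow, map_zpow, hs1, hz1, h1_apply, one_mul] at h
  have h' := congrArg Multiplicative.toAdd h
  simp only [toAdd_mul, toAdd_pow, toAdd_zpow, toAdd_ofAdd, nsmul_eq_mul, mul_one,
    zsmul_eq_mul] at h'
  exact h'.symm

lemma L2_form (s : Oˣ) (hs : s = 1 ∨ s = -1) (r : ℕ) (e : ℤ) :
    T.L2 (Φ ((s * zun ^ r * fu ^ e : Oˣ) : O)) = e * T.L2 (Φ (fu : O)) := by
  have hs1 : h2 s = 1 := by
    rcases hs with rfl | rfl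
    · exact map_one _
    · rw [h2_apply]
      simp only [Units.val_neg, Units.val_one, map_neg, map_one]
      decide
  have hz1 : h2 zun = 1 := by
    rw [h2_apply]
    simp only [zun, Φ_z]
    decide
  have h := h2_apply (s * zun ^ r * fu ^ e)
  rw [map_mul, map_mul, map_pow, map_zpow, hs1, hz1, h2_apply, one_mul, one_pow, one_mul] at h
  have h' := congrArg Multiplicative.toAdd h
  simp only [toAdd_zpow, toAdd_ofAdd, zsmul_eq_mul] at h'
  exact h'.symm

lemma L3_form (s : Oˣ) (hs : s = 1 ∨ s = -1) (r : ℕ) (e : ℤ) :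
    T.L3 (Φ ((s * zun ^ r * fu ^ e : Oˣ) : O)) = e * T.L3 (Φ (fu : O)) := by
  have hs1 : h3 s = 1 := by
    rcases hs with rfl | rfl
    · exact map_one _
    · rw [h3_apply]
      simp only [Units.val_neg, Units.val_one, map_neg, map_one]
      decide
  have hz1 : h3 zun = 1 := by
    rw [h3_apply]
    simp only [zun, Φ_z]
    decide
  have h := h3_apply (s * zun ^ r * fu ^ e)
  rw [map_mul, map_mul, map_pow, map_zpow, hs1, hz1, h3_apply, one_mul, one_pow, one_mul] at h
  have h' := congrArg Multiplicative.toAdd h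
  simp only [toAdd_zpow, toAdd_ofAdd, zsmul_eq_mul] at h'
  exact h'.symm

lemma Φ_z1 : Φ (z1un : O) = ⟨2, 1, 3, 1⟩ := by
  simp only [z1un, map_add, map_one, Φ_z]
  ext <;> simp [T.E]; decide

lemma fu_L2_ne : T.L2 (Φ (fu : O)) ≠ 0 := by
  obtain ⟨s, r, e, hs, h⟩ := unit_form z1un
  have h1 := L2_form s hs r e
  rw [← h, Φ_z1] at h1
  intro h0
  rw [h0, mul_zero] at h1
  revert h1
  decide

lemma fu_L3 : T.L3 (Φ (fu : O)) = 0 := by
  obtain ⟨s, r, e, hs, h⟩ := unit_form z1un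
  have h1 := L2_form s hs r e
  have h2 := L3_form s hs r e
  rw [← h, Φ_z1] at h1 h2
  have he : (e : ZMod 5) ≠ 0 := by
    intro h0
    rw [h0, zero_mul] at h1
    revert h1
    decide
  have h3 : T.L3 ⟨2, 1, 3, 1⟩ = 0 := by decide
  rw [h3] at h2
  exact (mul_eq_zero.1 h2.symm).resolve_left he

lemma L3_unit (u : Oˣ) : T.L3 (Φ (u : O)) = 0 := by
  obtain ⟨s, r, e, hs, h⟩ := unit_form u
  rw [h, L3_form s hs r e, fu_L3, mul_zero]

lemma zun5 : zun ^ 5 = 1 := by
  ext
  simp only [zun, Units.val_pow_eq_pow_val, Units.val_one]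
  rw [z_prim.pow_eq_one]

lemma kummer (u : Oˣ) (g1 : T.L1 (Φ (u : O)) = 0) (g2 : T.L2 (Φ (u : O)) = 0) :
    ∃ w : Oˣ, u = w ^ 5 := by
  obtain ⟨s, r, e, hs, h⟩ := unit_form u
  rw [h, L2_form s hs r e] at g2
  have he : (e : ZMod 5) = 0 := (mul_eq_zero.1 g2).resolve_right fu_L2_ne
  rw [h, L1_form s hs r e, he, zero_mul, add_zero] at g1
  obtain ⟨e', rfl⟩ := (ZMod.intCast_zmod_eq_zero_iff_dvd e 5).1 he
  obtain ⟨r', rfl⟩ := (ZMod.natCast_eq_zero_iff r 5).1 g1
  have hs5 : s ^ 5 = s := by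
    rcases hs with rfl | rfl
    · simp
    · ext; simp; norm_num
  refine ⟨s * fu ^ e', ?_⟩
  rw [h, mul_pow, hs5, pow_mul, zun5, one_pow, mul_one]
  congr 1
  rw [← zpow_natCast, ← zpow_mul]
  congr 1
  push_cast; ring

/-- The ring of integers of the fifth cyclotomic field satisfies the set-up. -/
noncomputable def setupO : Setup O where
  z := z
  hz := hz
  lam_prime := lam_prime
  int_rep := int_rep
  two_prime := two_prime
  pi_prime := fun _ h1 h4 => pi_prime h1 h4
  Φ := Φ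
  hΦ := Φ_z
  N := N
  N_int := N_int
  N_pi := fun _ h1 h4 => N_two_add h1 h4
  N_congr1 := N_congr1
  N_congr := N_congr
  kummer := kummer
  L3_unit := L3_unit

end Pool.Agent.Helper5.Quintic
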