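import Mathlib
import Pool.Agent.Helper5.Quintic.UnitsK

namespace Pool.Agent.Helper5.Quintic

lemma five_dvd_of_eq {x y w : ℤ} (h : x ^ 5 + y ^ 5 = 88 * w ^ 5) : (5 : ℤ) ∣ w := by
  have h1 : ∀ a : ZMod 25, a ^ 5 = 0 ∨ a ^ 5 = 1 ∨ a ^ 5 = 7 ∨ a ^ 5 = 18 ∨ a ^ 5 = 24 := by
    decide +kernel
  have h2 : ∀ a : ZMod 25, a ^ 5 = 0 → a = 0 ∨ a = 5 ∨ a = 10 ∨ a = 15 ∨ a = 20 := by
    decide +kernel
  have h3 : ((x ^ 5 + y ^ 5 : ℤ) : ZMod 25) = ((88 * w ^ 5 : ℤ) : ZMod 25) := by rw [h]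
  push_cast at h3
  have h4 : (w : ZMod 25) ^ 5 = 0 := by
    rcases h1 x with hx | hx | hx | hx | hx <;> rcases h1 y with hy | hy | hy | hy | hy <;>
      rcases h1 w with hw | hw | hw | hw | hw <;> rw [hx, hy, hw] at h3 <;>
      first
        | exact hw
        | (exfalso; revert h3; decide)
  have h5 : ∃ k : ℤ, (w : ZMod 25) = ((5 * k : ℤ) : ZMod 25) := by
    rcases h2 _ h4 with h | h | h | h | h
    · exact ⟨0, by rw [h]; decide⟩
    · exact ⟨1, by rw [h]; decide⟩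
    · exact ⟨2, by rw [h]; decide⟩
    · exact ⟨3, by rw [h]; decide⟩
    · exact ⟨4, by rw [h]; decide⟩
  obtain ⟨k, hk⟩ := h5
  rw [ZMod.intCast_eq_intCast_iff_dvd_sub] at hk
  push_cast at hk
  omega

lemma no_coprime {x y w : ℤ} (hxy : IsCoprime x y) (hw : w ≠ 0)
    (h : x ^ 5 + y ^ 5 = 88 * w ^ 5) : False := by
  have h5w := five_dvd_of_eq h
  obtain ⟨k, w', hw', hk⟩ : ∃ (k : ℕ) (w' : ℤ), ¬ (5 : ℤ) ∣ w' ∧ w = 5 ^ k * w' := by
    have hfin : FiniteMultiplicity (5 : ℤ) w := Int.finiteMultiplicity_iff.2 ⟨by norm_num, hw⟩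
    obtain ⟨c, hc, hc2⟩ := hfin.exists_eq_pow_mul_and_not_dvd
    exact ⟨_, c, hc2, hc⟩
  have hk1 : 1 ≤ k := by
    rcases Nat.eq_zero_or_pos k with h0 | h0
    · subst h0
      rw [pow_zero, one_mul] at hk
      rw [hk] at h5w
      exact absurd h5w hw'
    · exact h0
  have h5y : ¬ (5 : ℤ) ∣ y := by
    intro hy
    have hx5 : (5 : ℤ) ∣ x ^ 5 := by
      have : x ^ 5 = 88 * w ^ 5 - y ^ 5 := by linarith
      rw [this]
      exact dvd_sub (Dvd.dvd.mul_left (dvd_pow h5w (by norm_num)) _) (dvd_pow hy (by norm_num))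
    have hx : (5 : ℤ) ∣ x := Int.Prime.dvd_pow' (by norm_num) hx5
    have := hxy.isUnit_of_dvd' hx hy
    rw [Int.isUnit_iff] at this
    omega
  have hv : IsUnit ((-1 - z + z ^ 3 : O)) := five_unit
  apply setupO.no_sol (4 * k) (by omega)
  refine ⟨(x : O), (y : O), (w' : O), hv.unit ^ (5 * k), ?_, ?_, ?_, ?_⟩
  · exact hxy.map (Int.castRingHom O)
  · intro hd
    exact h5y (lam_dvd_int_iff.1 hd)
  · intro hd
    exact hw' (lam_dvd_int_iff.1 hd)
  · have h1 : ((x ^ 5 + y ^ 5 : ℤ) : O) = ((88 * w ^ 5 : ℤ) : O) := by rw [h]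
    push_cast at h1
    rw [h1, hk]
    push_cast
    rw [five_eq, IsUnit.unit_spec]
    show _ = (-1 - z + z ^ 3) ^ (5 * k) * 88 * ((z - 1) ^ (4 * k) * (w' : O)) ^ 5
    generalize (-1 - z + z ^ 3 : O) = v
    generalize (z - 1 : O) = L
    ring

lemma no_sol_int : ∀ (n : ℕ) (x y w : ℤ), w.natAbs = n → w ≠ 0 →
    x ^ 5 + y ^ 5 = 88 * w ^ 5 → False := by
  intro n
  induction n using Nat.strong_induction_on with
  | _ n ih =>
    intro x y w hn hw h
    by_cases hc : IsCoprime x y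
    · exact no_coprime hc hw h
    · have hg : Int.gcd x y ≠ 1 := fun hg => hc (Int.isCoprime_iff_gcd_eq_one.2 hg)
      obtain ⟨p, hp, hpg⟩ := Nat.exists_prime_and_dvd hg
      have hpg' : (p : ℤ) ∣ (Int.gcd x y : ℤ) := by exact_mod_cast hpg
      have hpx : (p : ℤ) ∣ x := hpg'.trans (Int.gcd_dvd_left ..)
      have hpy : (p : ℤ) ∣ y := hpg'.trans (Int.gcd_dvd_right ..)
      obtain ⟨a, rfl⟩ := hpx
      obtain ⟨b, rfl⟩ := hpy
      have hpp : Prime (p : ℤ) := Nat.prime_iff_prime_int.1 hp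
      have h5 : (p : ℤ) ^ 5 ∣ 88 * w ^ 5 := ⟨a ^ 5 + b ^ 5, by rw [← h]; ring⟩
      have hpw : (p : ℤ) ∣ w := by
        by_contra hpw
        have h6 : ¬ (p : ℤ) ∣ w ^ 5 := fun hd => hpw (hpp.dvd_of_dvd_pow hd)
        have h7 : (p : ℤ) ^ 5 ∣ 88 := hpp.pow_dvd_of_dvd_mul_right 5 h6 h5
        have h8 : p ^ 5 ∣ 88 := by exact_mod_cast h7
        have h9 : p ^ 5 ≤ 88 := Nat.le_of_dvd (by norm_num) h8
        have h10 : p < 3 := by
          by_contra hlt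
          have : 3 ^ 5 ≤ p ^ 5 := Nat.pow_le_pow_left (by omega) 5
          omega
        have h11 : p = 2 := by
          have := hp.two_le
          omega
        subst h11
        revert h8
        decide
      obtain ⟨c, rfl⟩ := hpw
      have hc0 : c ≠ 0 := by
        rintro rfl
        simp at hw
      have h6 : a ^ 5 + b ^ 5 = 88 * c ^ 5 := by
        have h7 : (p : ℤ) ^ 5 * (a ^ 5 + b ^ 5) = (p : ℤ) ^ 5 * (88 * c ^ 5) := by
          linear_combination h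
        exact mul_left_cancel₀ (pow_ne_zero 5 hpp.ne_zero) h7
      apply ih c.natAbs _ a b c rfl hc0 h6
      rw [← hn, Int.natAbs_mul, Int.natAbs_natCast]
      have h7 : 0 < c.natAbs := Int.natAbs_pos.2 hc0
      have h8 := hp.two_le
      nlinarith

theorem main (x y z : ℤ) (h : 4 * x ^ 5 + 4 * y ^ 5 + 11 * z ^ 5 = 0) : z = 0 ∧ y = -x := by
  have hz2 : (2 : ℤ) ∣ z := by
    have h1 : (2 : ℤ) ∣ z ^ 5 := by omega
    exact Int.Prime.dvd_pow' (by norm_num) h1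
  obtain ⟨t, rfl⟩ := hz2
  have h1 : x ^ 5 + y ^ 5 = 88 * (-t) ^ 5 := by
    have : (-t) ^ 5 = -(t ^ 5) := by ring
    rw [this]
    have h2 : (2 * t) ^ 5 = 32 * t ^ 5 := by ring
    rw [h2] at h
    omega
  have ht : t = 0 := by
    by_contra ht
    exact no_sol_int _ x y (-t) rfl (neg_ne_zero.2 ht) h1
  subst ht
  refine ⟨by norm_num, ?_⟩
  have h2 : y ^ 5 = (-x) ^ 5 := by
    have : (-x) ^ 5 = -(x ^ 5) := by ring
    rw [this]
    norm_num at h1
    omega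
  exact (Odd.strictMono_pow (by decide : Odd 5)).injective h2

end Pool.Agent.Helper5.Quintic
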